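import Pool.Agent.Lib_helper99.Sandpile.PathBlock

set_option autoImplicit false

open MeasureTheory ProbabilityTheory Finset

namespace Pool.Agent.Lib_helper99.Sandpile

/-- the time scales -/
noncomputable def ts (q : ℝ) (k : ℕ) : ℕ := ⌈q ^ (2 * k)⌉₊

section scales

variable {q : ℝ}

lemma ts_zero : ts q 0 = 1 := by simp [ts]

lemma ts_mono (hq : 1 < q) : Monotone (ts q) := by
  intro a b h
  unfold ts
  exact Nat.ceil_mono (pow_le_pow_right₀ hq.le (by omega))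

lemma le_ts (k : ℕ) : (q ^ k) ^ 2 ≤ ts q k := by
  unfold ts
  rw [← pow_mul, mul_comm k 2]
  exact Nat.le_ceil _

lemma ts_lt (hq : 1 < q) (k : ℕ) : (ts q k : ℝ) < (q ^ k) ^ 2 + 1 := by
  unfold ts
  rw [← pow_mul, mul_comm k 2]
  exact Nat.ceil_lt_add_one (by positivity)

lemma one_le_qk (hq : 1 < q) (k : ℕ) : 1 ≤ q ^ k := one_le_pow₀ hq.le

lemma ts_succ_le (hq : 1 < q) (k : ℕ) : (ts q (k + 1) : ℝ) ≤ 2 * q ^ 2 * (q ^ k) ^ 2 := by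
  have h := ts_lt hq (k + 1)
  have h1 : q ^ (k + 1) = q * q ^ k := by rw [pow_succ]; ring
  rw [h1] at h
  have h2 := one_le_qk hq k
  have h3 : 1 ≤ q * q ^ k := by nlinarith
  have h4 : 1 ≤ (q * q ^ k) ^ 2 := one_le_pow₀ h3
  nlinarith

lemma ts_diff_le (hq : 1 < q) (k : ℕ) :
    (ts q (k + 1) : ℝ) - ts q k ≤ (q ^ 2 - 1) * (q ^ k) ^ 2 + 1 := by
  have h := ts_lt hq (k + 1)
  have h1 : q ^ (k + 1) = q * q ^ k := by rw [pow_succ]; ring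
  rw [h1] at h
  have h2 := le_ts (q := q) k
  nlinarith

lemma ts_tendsto (hq : 1 < q) (n : ℕ) : ∃ k, 1 ≤ k ∧ n ≤ ts q k := by
  obtain ⟨k, hk⟩ := pow_unbounded_of_one_lt (n : ℝ) hq
  refine ⟨k + 1, by omega, ?_⟩
  have h1 := le_ts (q := q) (k + 1)
  have h2 := one_le_qk hq k
  have h3 : (n : ℝ) ≤ ts q (k + 1) := by
    have h4 : q ^ (k + 1) = q * q ^ k := by rw [pow_succ]; ring
    rw [h4] at h1
    have h5 : q ^ k ≤ q * q ^ k := by nlinarith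
    have h6 : 1 ≤ q * q ^ k := by linarith
    have h7 : q * q ^ k ≤ (q * q ^ k) ^ 2 := by nlinarith
    linarith
  exact_mod_cast h3

end scales

/-- arithmetic of the long blocks -/
lemma arith_large {x κ a b C2 C3 C4 C6 T : ℝ} (hx1 : 1 ≤ x) (hκ0 : 0 < κ) (ha0 : 0 ≤ a)
    (hb0 : 0 ≤ b) (hC20 : 0 ≤ C2) (hC40 : 0 ≤ C4) (hC60 : 0 ≤ C6) :
    ((κ * x ^ 2) ^ 5)⁻¹ * (1080 * C2 ^ 3 * (a * x ^ 2) ^ 3 * (b * x) ^ 3 +
        (3600 * C2 * (x * C4) + 2400 * C3 ^ 2) * (a * x ^ 2) ^ 2 *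
          (b * x) ^ 4 + 720 * (64 * (T + C6)) * (a * x ^ 2) * (b * x) ^ 5) ≤
      (1080 * C2 ^ 3 * a ^ 3 * b ^ 3 + (3600 * C2 * C4 + 2400 * C3 ^ 2) * a ^ 2 * b ^ 4 +
      720 * (64 * C6) * a * b ^ 5) / κ ^ 5 * x⁻¹ + 720 * 64 * a * b ^ 5 / κ ^ 5 * ((x ^ 3)⁻¹ * T) := by
  have hx0 : 0 < x := by linarith
  obtain ⟨k', hk'⟩ : ∃ k', k' = (κ ^ 5)⁻¹ := ⟨_, rfl⟩
  obtain ⟨y, hy⟩ : ∃ y, y = x⁻¹ := ⟨_, rfl⟩
  have hk0 : 0 ≤ k' := by rw [hk']; positivity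
  have hy0 : 0 ≤ y := by rw [hy]; positivity
  have hy1 : y ≤ 1 := by rw [hy]; exact inv_le_one_of_one_le₀ hx1
  have hxy : x * y = 1 := by rw [hy]; exact mul_inv_cancel₀ hx0.ne'
  have e1 : ((κ * x ^ 2) ^ 5)⁻¹ = k' * y ^ 10 := by
    rw [hk', hy, inv_pow, ← mul_inv]; congr 1; ring
  have e2 : (x ^ 3)⁻¹ = y ^ 3 := by rw [hy, inv_pow]
  rw [e1, e2, ← hy, div_eq_mul_inv, div_eq_mul_inv, ← hk']
  have x9 : x ^ 9 * y ^ 10 = y := by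
    calc x ^ 9 * y ^ 10 = (x * y) ^ 9 * y := by ring
      _ = y := by rw [hxy]; ring
  have x8 : x ^ 8 * y ^ 10 = y ^ 2 := by
    calc x ^ 8 * y ^ 10 = (x * y) ^ 8 * y ^ 2 := by ring
      _ = y ^ 2 := by rw [hxy]; ring
  have x7 : x ^ 7 * y ^ 10 = y ^ 3 := by
    calc x ^ 7 * y ^ 10 = (x * y) ^ 7 * y ^ 3 := by ring
      _ = y ^ 3 := by rw [hxy]; ring
  have e3 : k' * y ^ 10 * (1080 * C2 ^ 3 * (a * x ^ 2) ^ 3 * (b * x) ^ 3 +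
        (3600 * C2 * (x * C4) + 2400 * C3 ^ 2) * (a * x ^ 2) ^ 2 *
          (b * x) ^ 4 + 720 * (64 * (T + C6)) * (a * x ^ 2) * (b * x) ^ 5) =
      k' * (1080 * C2 ^ 3 * a ^ 3 * b ^ 3 + 3600 * C2 * C4 * a ^ 2 * b ^ 4) * (x ^ 9 * y ^ 10) +
      k' * (2400 * C3 ^ 2 * a ^ 2 * b ^ 4) * (x ^ 8 * y ^ 10) +
      k' * (720 * (64 * (T + C6)) * a * b ^ 5) * (x ^ 7 * y ^ 10) := by ring
  rw [e3, x9, x8, x7]
  have y2 : y ^ 2 ≤ y := by nlinarith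
  have y3 : y ^ 3 ≤ y := by nlinarith
  have g1 : k' * (2400 * C3 ^ 2 * a ^ 2 * b ^ 4) * y ^ 2 ≤
      k' * (2400 * C3 ^ 2 * a ^ 2 * b ^ 4) * y := by gcongr
  have g2 : k' * (720 * (64 * C6) * a * b ^ 5) * y ^ 3 ≤
      k' * (720 * (64 * C6) * a * b ^ 5) * y := by gcongr
  calc _ = k' * (1080 * C2 ^ 3 * a ^ 3 * b ^ 3 + 3600 * C2 * C4 * a ^ 2 * b ^ 4) * y +
      k' * (2400 * C3 ^ 2 * a ^ 2 * b ^ 4) * y ^ 2 +
      (k' * (720 * (64 * C6) * a * b ^ 5) * y ^ 3 + k' * (720 * (64 * T) * a * b ^ 5) * y ^ 3) := by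
        ring
    _ ≤ k' * (1080 * C2 ^ 3 * a ^ 3 * b ^ 3 + 3600 * C2 * C4 * a ^ 2 * b ^ 4) * y +
      k' * (2400 * C3 ^ 2 * a ^ 2 * b ^ 4) * y +
      (k' * (720 * (64 * C6) * a * b ^ 5) * y + k' * (720 * (64 * T) * a * b ^ 5) * y ^ 3) := by
        gcongr
    _ = _ := by ring

/-- arithmetic of the drift -/
lemma arith_drift {x δ m q D t t' : ℝ} (hD0 : 0 < D) (hm0 : 0 ≤ m) (hδ0 : 0 < δ) (hq : 1 < q)
    (hq2 : q ^ 2 - 1 ≤ δ / (4 * D * (m + 1))) (h1 : x ^ 2 ≤ t)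
    (h2 : t' - t ≤ (q ^ 2 - 1) * x ^ 2 + 1) (hcase : m ≤ δ * x ^ 2 / (4 * D)) :
    δ / (2 * D) * x ^ 2 ≤ δ * t / D - m * (t' - t) := by
  have h3' : δ * x ^ 2 / D ≤ δ * t / D := by gcongr
  have h4 : m * (t' - t) ≤ m * ((q ^ 2 - 1) * x ^ 2 + 1) := by gcongr
  have h5 : m * (q ^ 2 - 1) ≤ δ / (4 * D) := by
    have h6 : 0 ≤ q ^ 2 - 1 := by nlinarith
    calc m * (q ^ 2 - 1) ≤ (m + 1) * (q ^ 2 - 1) := by nlinarith
      _ ≤ (m + 1) * (δ / (4 * D * (m + 1))) := by gcongr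
      _ = δ / (4 * D) := by
        have : m + 1 ≠ 0 := by linarith
        field_simp
  have h7 : m * ((q ^ 2 - 1) * x ^ 2 + 1) ≤ δ / (4 * D) * x ^ 2 + δ * x ^ 2 / (4 * D) := by
    have : m * (q ^ 2 - 1) * x ^ 2 ≤ δ / (4 * D) * x ^ 2 := by gcongr
    nlinarith
  have h8 : δ / (2 * D) * x ^ 2 = δ * x ^ 2 / D - (δ / (4 * D) * x ^ 2 + δ * x ^ 2 / (4 * D)) := by
    field_simp; ring
  rw [h8]
  linarith

/-- arithmetic of the short blocks -/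
lemma arith_small {x δ m D a t' : ℝ} (hD0 : 0 < D) (hm0 : 0 ≤ m) (hδ0 : 0 < δ) (hx1 : 1 ≤ x)
    (ha0 : 0 ≤ a) (ht' : t' ≤ a * x ^ 2) (hcase : δ * x ^ 2 / (4 * D) < m) :
    t' * m ≤ a * m * (4 * D * m / δ) ^ 2 * x⁻¹ := by
  have hx0 : 0 < x := by linarith
  have hx4 : x ^ 2 ≤ 4 * D * m / δ := by
    rw [le_div_iff₀ hδ0]
    rw [div_lt_iff₀ (by positivity)] at hcase
    linarith
  have h5 : x ^ 3 ≤ (4 * D * m / δ) ^ 2 := by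
    calc x ^ 3 ≤ x ^ 4 := pow_le_pow_right₀ hx1 (by norm_num)
      _ = (x ^ 2) ^ 2 := by ring
      _ ≤ _ := pow_le_pow_left₀ (by positivity) hx4 2
  calc t' * m ≤ a * x ^ 2 * m := by gcongr
    _ = a * m * x ^ 3 * x⁻¹ := by field_simp
    _ ≤ _ := by gcongr

section annealed

variable {V : Type*} {G : SimpleGraph V} [G.LocallyFinite] [DecidableEq V]
variable {Ω : Type*} [MeasurableSpace Ω] {P : Measure Ω} [IsProbabilityMeasure P]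
variable {ζ : V → Ω → ℝ} {μ0 : Measure ℝ} [IsProbabilityMeasure μ0]

/-- the Green function bound at the time scales -/
lemma gr_ts_le (hinf : Infinite V) (hconn : G.Connected) (hpos : ∀ x, 0 < G.degree x) {D : ℕ}
    (hD : ∀ x, G.degree x ≤ D) {q : ℝ} (hq : 1 < q) (k : ℕ) (y : V) (t : ℕ)
    (ht : t ≤ ts q (k + 1)) (x : V) : gr G y t x ≤ 8 * D * q * q ^ k := by
  set r := ⌈q ^ (k + 1)⌉₊ with hr
  have h0 : 1 ≤ q ^ (k + 1) := one_le_qk hq (k + 1)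
  have hr1 : 1 ≤ r := by
    have : (1 : ℝ) ≤ r := h0.trans (Nat.le_ceil _)
    exact_mod_cast this
  have htr : t ≤ r ^ 2 := by
    refine ht.trans ?_
    unfold ts
    rw [Nat.ceil_le]
    push_cast
    have : q ^ (k + 1) ≤ r := Nat.le_ceil _
    calc q ^ (2 * (k + 1)) = (q ^ (k + 1)) ^ 2 := by rw [← pow_mul, mul_comm]
      _ ≤ (r : ℝ) ^ 2 := pow_le_pow_left₀ (by linarith) this 2
  have h1 := gr_bound y hinf hconn hD hpos t r hr1 htr x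
  have h2 : (r : ℝ) ≤ 2 * (q * q ^ k) := by
    have h3 : (r : ℝ) < q ^ (k + 1) + 1 := Nat.ceil_lt_add_one (by linarith)
    have h4 : q ^ (k + 1) = q * q ^ k := by rw [pow_succ]; ring
    rw [h4] at h3 h0
    linarith
  calc gr G y t x ≤ 4 * D * r := h1
    _ ≤ 4 * D * (2 * (q * q ^ k)) := by gcongr
    _ = _ := by ring

/-- The per-block annealed bound. -/
lemma block_annealed (hinf : Infinite V) (hconn : G.Connected) (hpos : ∀ x, 0 < G.degree x)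
    {D : ℕ} (hD : ∀ x, G.degree x ≤ D)
    (hm : ∀ y, Measurable (ζ y))
    (hi : iIndepFun ζ P) (hmap : ∀ y, P.map (ζ y) = μ0) {K : ℝ} (hK : ∀ y ω, -K ≤ ζ y ω)
    (hK' : ∀ᵐ r ∂μ0, -K ≤ r) (hK0 : 0 ≤ K) (h3 : Integrable (fun r => max r 0 ^ 3) μ0)
    (hδ : ∫ r, max r 0 ∂μ0 < ∫ r, ng r ∂μ0) {q : ℝ} (hq : 1 < q)
    (hq2 : q ^ 2 - 1 ≤ ((∫ r, ng r ∂μ0) - ∫ r, max r 0 ∂μ0) / (4 * D * ((∫ r, max r 0 ∂μ0) + 1))) :
    ∃ c0 c1 a : ℝ, 0 ≤ c0 ∧ 0 ≤ c1 ∧ 0 ≤ a ∧ ∀ (k : ℕ) (v : V),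
      Ew G (ts q (k + 1)) v (fun l => ∫ ω, max (Bf G ζ (ts q k) l ω) 0 ∂P) ≤
        c0 * (q ^ k)⁻¹ + c1 * ((q ^ (3 * k))⁻¹ * ∫ r, tr (q ^ k) r ^ 6 ∂μ0) +
          a * (q ^ (2 * k) * ∫ r, bg (q ^ k) r ∂μ0) := by
  have hq0 : 0 < q := by linarith
  have hint := integrable_pos hK' hK0 h3
  obtain ⟨m, hmdef⟩ : ∃ m, m = ∫ r, max r 0 ∂μ0 := ⟨_, rfl⟩
  obtain ⟨δ, hδdef⟩ : ∃ δ, δ = (∫ r, ng r ∂μ0) - m := ⟨_, rfl⟩
  have hδ0 : 0 < δ := by rw [hδdef, hmdef]; linarith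
  have hm0 : 0 ≤ m := by rw [hmdef]; exact integral_nonneg fun r => le_max_right _ _
  rw [← hmdef, ← hδdef] at hq2
  obtain ⟨o⟩ : Nonempty V := hconn.nonempty
  have hD1 : (1 : ℝ) ≤ D := by
    have : 1 ≤ D := (hpos o).trans_le (hD o)
    exact_mod_cast this
  have hD0 : (0 : ℝ) < D := by linarith
  have hI1 : 0 ≤ ∫ r, |r| ∂μ0 := integral_nonneg fun r => abs_nonneg r
  have hI3 : 0 ≤ ∫ r, |r| ^ 3 ∂μ0 := integral_nonneg fun r => by positivity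
  -- moment constants
  obtain ⟨C2, hC2⟩ : ∃ C2, C2 = 2 ^ 2 * (∫ r, |r| ^ 2 ∂μ0 + (∫ r, |r| ∂μ0) ^ 2) := ⟨_, rfl⟩
  obtain ⟨C3, hC3⟩ : ∃ C3, C3 = 2 ^ 3 * (∫ r, |r| ^ 3 ∂μ0 + (∫ r, |r| ∂μ0) ^ 3) := ⟨_, rfl⟩
  obtain ⟨C4, hC4⟩ : ∃ C4, C4 = 16 * ((1 + K) * ∫ r, |r| ^ 3 ∂μ0 + (∫ r, |r| ∂μ0) ^ 4) := ⟨_, rfl⟩
  obtain ⟨C6, hC6⟩ : ∃ C6, C6 = K ^ 6 + (∫ r, |r| ∂μ0) ^ 6 := ⟨_, rfl⟩
  have e2 : ∀ s, cj μ0 s 2 ≤ C2 := fun s => hC2 ▸ cj_le_low hK' hK0 h3 s (by norm_num)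
  have e3 : ∀ s, cj μ0 s 3 ≤ C3 := fun s => hC3 ▸ cj_le_low hK' hK0 h3 s (by norm_num)
  have e4 : ∀ s, 1 ≤ s → cj μ0 s 4 ≤ s * C4 := fun s hs => hC4 ▸ cj_le_four hK' hK0 h3 hs
  have e6 : ∀ s, 1 ≤ s → cj μ0 s 6 ≤ 64 * (∫ r, tr s r ^ 6 ∂μ0 + C6) :=
    fun s hs => hC6 ▸ cj_le_six hK' hK0 h3 hs
  have hC20 : 0 ≤ C2 := (cj_nonneg hK' hK0 h3 1 2).trans (e2 1)
  have hC30 : 0 ≤ C3 := (cj_nonneg hK' hK0 h3 1 3).trans (e3 1)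
  have hC40 : 0 ≤ C4 := by rw [hC4]; positivity
  have hC60 : 0 ≤ C6 := by rw [hC6]; positivity
  clear hC2 hC3 hC4 hC6
  -- numeric constants
  obtain ⟨a, ha⟩ : ∃ a, a = 2 * q ^ 2 := ⟨_, rfl⟩
  obtain ⟨b, hb⟩ : ∃ b, b = 8 * D * q := ⟨_, rfl⟩
  obtain ⟨κ, hκ⟩ : ∃ κ, κ = δ / (2 * D) := ⟨_, rfl⟩
  have ha0 : 0 < a := by rw [ha]; positivity
  have hb0 : 0 < b := by rw [hb]; positivity
  have hκ0 : 0 < κ := by rw [hκ]; positivity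
  have hmain0 : 0 ≤ (1080 * C2 ^ 3 * a ^ 3 * b ^ 3 + (3600 * C2 * C4 + 2400 * C3 ^ 2) * a ^ 2 * b ^ 4 +
      720 * (64 * C6) * a * b ^ 5) / κ ^ 5 := by positivity
  have hmain1 : 0 ≤ 720 * 64 * a * b ^ 5 / κ ^ 5 := by positivity
  have hmain2 : 0 ≤ a * m * (4 * D * m / δ) ^ 2 := by positivity
  refine ⟨(1080 * C2 ^ 3 * a ^ 3 * b ^ 3 + (3600 * C2 * C4 + 2400 * C3 ^ 2) * a ^ 2 * b ^ 4 +
      720 * (64 * C6) * a * b ^ 5) / κ ^ 5 + a * m * (4 * D * m / δ) ^ 2,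
      720 * 64 * a * b ^ 5 / κ ^ 5, a, add_nonneg hmain0 hmain2, hmain1, ha0.le, fun k v => ?_⟩
  have hk3 : q ^ (3 * k) = (q ^ k) ^ 3 := by rw [← pow_mul, mul_comm]
  have hk2 : q ^ (2 * k) = (q ^ k) ^ 2 := by rw [← pow_mul, mul_comm]
  have hts1 := le_ts (q := q) k
  have hts2 := ts_diff_le hq k
  have ht' : (ts q (k + 1) : ℝ) ≤ a * (q ^ k) ^ 2 := ha ▸ ts_succ_le hq k
  have hx1 : 1 ≤ q ^ k := one_le_qk hq k
  have hgr : ∀ y, ∀ t ≤ ts q (k + 1), ∀ z, gr G y t z ≤ b * q ^ k :=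
    fun y t ht z => hb ▸ gr_ts_le hinf hconn hpos hD hq k y t ht z
  rw [hk3, hk2]
  generalize q ^ k = x at *
  have hx0 : 0 < x := by linarith
  obtain ⟨T, hT⟩ : ∃ T, T = ∫ r, tr x r ^ 6 ∂μ0 := ⟨_, rfl⟩
  obtain ⟨B, hB⟩ : ∃ B, B = ∫ r, bg x r ∂μ0 := ⟨_, rfl⟩
  have hT0 : 0 ≤ T := hT ▸ integral_nonneg fun r => pow_nonneg (tr_nonneg x r) 6
  have hB0 : 0 ≤ B := hB ▸ integral_nonneg fun r => bg_nonneg x r
  have ht'0 : (0 : ℝ) ≤ ts q (k + 1) := Nat.cast_nonneg _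
  rw [← hT, ← hB]
  have hmono : ts q k ≤ ts q (k + 1) := ts_mono hq (by omega)
  by_cases hcase : m ≤ δ * x ^ 2 / (4 * D)
  · -- large block
    have hu : 0 < κ * x ^ 2 := by positivity
    have huδ : κ * x ^ 2 ≤ δ * ts q k / D - m * (ts q (k + 1) - ts q k) := by
      rw [hκ]
      exact arith_drift hD0 hm0 hδ0 hq hq2 hts1 hts2 hcase
    have hlarge : ∀ l : List V, l.length = ts q (k + 1) →
        ∫ ω, max (Bf G ζ (ts q k) l ω) 0 ∂P ≤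
          ((κ * x ^ 2) ^ 5)⁻¹ * (45 * (cj μ0 x 2 * Lm 2 l) ^ 3 +
            30 * ((cj μ0 x 2 * Lm 2 l) * (cj μ0 x 4 * Lm 4 l)) +
            20 * (cj μ0 x 3 * Lm 3 l) ^ 2 + cj μ0 x 6 * Lm 6 l) + ts q (k + 1) * B := by
      intro l hl
      rw [hδdef, hmdef] at huδ
      have := block_large (P := P) hpos hD hm hi hmap hK hK' hK0 hint hδ.le hx0.le (ts q k)
        (ts q (k + 1)) hmono l hl hu huδ
      rw [div_eq_inv_mul, ← hB] at this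
      exact this
    have hEw := Ew_mono (G := G) (ts q (k + 1)) v _ _ hlarge
    rw [Ew_add, Ew_const_mul, Ew_const hpos] at hEw
    have c2n := cj_nonneg (μ0 := μ0) hK' hK0 h3 x 2
    have c3n := cj_nonneg (μ0 := μ0) hK' hK0 h3 x 3
    have c4n := cj_nonneg (μ0 := μ0) hK' hK0 h3 x 4
    have c6n := cj_nonneg (μ0 := μ0) hK' hK0 h3 x 6
    have hQ := Ew_Q (G := G) hpos (ts q (k + 1)) (g := b * x) hgr (by positivity)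
      c2n c3n c4n c6n v
    have e2' := e2 x
    have e3' := e3 x
    have e4' := e4 x hx1
    have e6' := e6 x hx1
    rw [← hT] at e6'
    have hQ2 : 1080 * cj μ0 x 2 ^ 3 * (ts q (k + 1) : ℝ) ^ 3 * (b * x) ^ 3 +
        (3600 * cj μ0 x 2 * cj μ0 x 4 + 2400 * cj μ0 x 3 ^ 2) * (ts q (k + 1) : ℝ) ^ 2 *
          (b * x) ^ 4 + 720 * cj μ0 x 6 * ts q (k + 1) * (b * x) ^ 5 ≤
        1080 * C2 ^ 3 * (a * x ^ 2) ^ 3 * (b * x) ^ 3 +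
        (3600 * C2 * (x * C4) + 2400 * C3 ^ 2) * (a * x ^ 2) ^ 2 *
          (b * x) ^ 4 + 720 * (64 * (T + C6)) * (a * x ^ 2) * (b * x) ^ 5 := by
      gcongr
    have hQ3 := hQ.trans hQ2
    have hκx : 0 < ((κ * x ^ 2) ^ 5)⁻¹ := by positivity
    have hfin := arith_large (x := x) (κ := κ) (a := a) (b := b) (C2 := C2) (C3 := C3) (C4 := C4)
      (C6 := C6) (T := T) hx1 hκ0 ha0.le hb0.le hC20 hC40 hC60
    have hlast : (ts q (k + 1) : ℝ) * B ≤ a * (x ^ 2 * B) := by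
      calc (ts q (k + 1) : ℝ) * B ≤ a * x ^ 2 * B := by gcongr
        _ = _ := by ring
    have hextra : 0 ≤ a * m * (4 * D * m / δ) ^ 2 * x⁻¹ := mul_nonneg hmain2 (by positivity)
    have hQ4 := mul_le_mul_of_nonneg_left hQ3 hκx.le
    rw [add_mul]
    linarith
  · -- small block
    push Not at hcase
    have hsmall : ∀ l : List V, l.length = ts q (k + 1) →
        ∫ ω, max (Bf G ζ (ts q k) l ω) 0 ∂P ≤ ts q (k + 1) * m := fun l hl => by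
      rw [hmdef]
      exact block_small (P := P) hpos hm hmap hint (ts q k) (ts q (k + 1)) l hl
    have hEw := Ew_mono (G := G) (ts q (k + 1)) v _ _ hsmall
    rw [Ew_const hpos] at hEw
    have h6 := arith_small hD0 hm0 hδ0 hx1 ha0.le ht' hcase
    have n1 : 0 ≤ (1080 * C2 ^ 3 * a ^ 3 * b ^ 3 + (3600 * C2 * C4 + 2400 * C3 ^ 2) * a ^ 2 * b ^ 4 +
      720 * (64 * C6) * a * b ^ 5) / κ ^ 5 * x⁻¹ := mul_nonneg hmain0 (by positivity)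
    have n2 : 0 ≤ 720 * 64 * a * b ^ 5 / κ ^ 5 * ((x ^ 3)⁻¹ * T) :=
      mul_nonneg hmain1 (by positivity)
    have n3 : 0 ≤ a * (x ^ 2 * B) := by positivity
    rw [add_mul]
    linarith

end annealed

end Pool.Agent.Lib_helper99.Sandpile
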