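import Mathlib

set_option autoImplicit false

open MeasureTheory ProbabilityTheory Finset

namespace Pool.Agent.Lib_helper99.Sandpile

variable {ι Ω : Type*} [MeasurableSpace Ω] {P : Measure Ω} [IsProbabilityMeasure P]

lemma integrable_of_bdd {f : Ω → ℝ} (hf : Measurable f) {C : ℝ} (hC : ∀ ω, |f ω| ≤ C) :
    Integrable f P :=
  (integrable_const C).mono' hf.aestronglyMeasurable (ae_of_all _ fun ω => by
    simpa [Real.norm_eq_abs] using hC ω)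

omit [IsProbabilityMeasure P] in
lemma iadd {f g : Ω → ℝ} (hf : Integrable f P) (hg : Integrable g P) :
    Integrable (fun ω => f ω + g ω) P := hf.add hg

omit [MeasurableSpace Ω] in
lemma bdd_pow {f : Ω → ℝ} {C : ℝ} (hC : ∀ ω, |f ω| ≤ C) (n : ℕ) (ω : Ω) :
    |f ω ^ n| ≤ C ^ n := by
  rw [abs_pow]
  exact pow_le_pow_left₀ (abs_nonneg _) (hC ω) n

lemma integrable_pow_of_bdd {f : Ω → ℝ} (hf : Measurable f) {C : ℝ} (hC : ∀ ω, |f ω| ≤ C)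
    (n : ℕ) : Integrable (fun ω => f ω ^ n) P :=
  integrable_of_bdd (hf.pow_const n) (bdd_pow hC n)

/-- even/odd moments of a sum of two independent bounded variables, second one centred -/
lemma moments_add {T Y : Ω → ℝ} (hT : Measurable T) (hY : Measurable Y) {C C' : ℝ}
    (hTC : ∀ ω, |T ω| ≤ C) (hYC : ∀ ω, |Y ω| ≤ C') (hind : IndepFun T Y P)
    (h0T : ∫ ω, T ω ∂P = 0) (h0Y : ∫ ω, Y ω ∂P = 0) :
    (∫ ω, (T ω + Y ω) ∂P = 0) ∧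
    (∫ ω, (T ω + Y ω) ^ 2 ∂P = ∫ ω, T ω ^ 2 ∂P + ∫ ω, Y ω ^ 2 ∂P) ∧
    (∫ ω, (T ω + Y ω) ^ 3 ∂P = ∫ ω, T ω ^ 3 ∂P + ∫ ω, Y ω ^ 3 ∂P) ∧
    (∫ ω, (T ω + Y ω) ^ 4 ∂P = ∫ ω, T ω ^ 4 ∂P + 6 * ((∫ ω, T ω ^ 2 ∂P) * ∫ ω, Y ω ^ 2 ∂P) +
      ∫ ω, Y ω ^ 4 ∂P) ∧
    (∫ ω, (T ω + Y ω) ^ 6 ∂P = ∫ ω, T ω ^ 6 ∂P + 15 * ((∫ ω, T ω ^ 4 ∂P) * ∫ ω, Y ω ^ 2 ∂P) +
      20 * ((∫ ω, T ω ^ 3 ∂P) * ∫ ω, Y ω ^ 3 ∂P) +
      15 * ((∫ ω, T ω ^ 2 ∂P) * ∫ ω, Y ω ^ 4 ∂P) + ∫ ω, Y ω ^ 6 ∂P) := by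
  have hTi := fun n => integrable_pow_of_bdd (P := P) hT hTC n
  have hYi := fun n => integrable_pow_of_bdd (P := P) hY hYC n
  have hprod : ∀ a b : ℕ, ∫ ω, T ω ^ a * Y ω ^ b ∂P = (∫ ω, T ω ^ a ∂P) * ∫ ω, Y ω ^ b ∂P := by
    intro a b
    exact hind.integral_fun_comp_mul_comp (f := fun x : ℝ => x ^ a) (g := fun x : ℝ => x ^ b)
      hT.aemeasurable hY.aemeasurable (by fun_prop) (by fun_prop)
  have hpi : ∀ a b : ℕ, Integrable (fun ω => T ω ^ a * Y ω ^ b) P := by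
    intro a b
    refine integrable_of_bdd ((hT.pow_const a).mul (hY.pow_const b)) (C := C ^ a * C' ^ b)
      fun ω => ?_
    rw [abs_mul]
    exact mul_le_mul (bdd_pow hTC a ω) (bdd_pow hYC b ω) (abs_nonneg _)
      (le_trans (abs_nonneg _) (bdd_pow hTC a ω))
  have hT1 : ∫ ω, T ω ^ 1 ∂P = 0 := by simpa using h0T
  have hY1 : ∫ ω, Y ω ^ 1 ∂P = 0 := by simpa using h0Y
  refine ⟨?_, ?_, ?_, ?_, ?_⟩
  · have h1 := hTi 1
    have h2 := hYi 1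
    simp only [pow_one] at h1 h2
    rw [integral_add h1 h2, h0T, h0Y, add_zero]
  · have he : ∀ ω, (T ω + Y ω) ^ 2 = T ω ^ 2 + 2 * (T ω ^ 1 * Y ω ^ 1) + Y ω ^ 2 := by
      intro ω; ring
    simp only [he]
    rw [integral_add (iadd (hTi 2) ((hpi 1 1).const_mul 2)) (hYi 2),
      integral_add (hTi 2) ((hpi 1 1).const_mul 2), integral_const_mul, hprod, hT1]
    ring
  · have he : ∀ ω, (T ω + Y ω) ^ 3 = T ω ^ 3 + 3 * (T ω ^ 2 * Y ω ^ 1) +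
        3 * (T ω ^ 1 * Y ω ^ 2) + Y ω ^ 3 := by
      intro ω; ring
    simp only [he]
    have i1 := iadd (hTi 3) ((hpi 2 1).const_mul 3)
    have i2 := iadd i1 ((hpi 1 2).const_mul 3)
    rw [integral_add i2 (hYi 3), integral_add i1 ((hpi 1 2).const_mul 3),
      integral_add (hTi 3) ((hpi 2 1).const_mul 3), integral_const_mul, integral_const_mul,
      hprod, hprod, hT1, hY1]
    ring
  · have he : ∀ ω, (T ω + Y ω) ^ 4 = T ω ^ 4 + 4 * (T ω ^ 3 * Y ω ^ 1) +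
        6 * (T ω ^ 2 * Y ω ^ 2) + 4 * (T ω ^ 1 * Y ω ^ 3) + Y ω ^ 4 := by
      intro ω; ring
    simp only [he]
    have i1 := iadd (hTi 4) ((hpi 3 1).const_mul 4)
    have i2 := iadd i1 ((hpi 2 2).const_mul 6)
    have i3 := iadd i2 ((hpi 1 3).const_mul 4)
    rw [integral_add i3 (hYi 4), integral_add i2 ((hpi 1 3).const_mul 4),
      integral_add i1 ((hpi 2 2).const_mul 6),
      integral_add (hTi 4) ((hpi 3 1).const_mul 4), integral_const_mul, integral_const_mul,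
      integral_const_mul, hprod, hprod, hprod, hT1, hY1]
    ring
  · have he : ∀ ω, (T ω + Y ω) ^ 6 = T ω ^ 6 + 6 * (T ω ^ 5 * Y ω ^ 1) +
        15 * (T ω ^ 4 * Y ω ^ 2) + 20 * (T ω ^ 3 * Y ω ^ 3) + 15 * (T ω ^ 2 * Y ω ^ 4) +
        6 * (T ω ^ 1 * Y ω ^ 5) + Y ω ^ 6 := by
      intro ω; ring
    simp only [he]
    have i1 := iadd (hTi 6) ((hpi 5 1).const_mul 6)
    have i2 := iadd i1 ((hpi 4 2).const_mul 15)
    have i3 := iadd i2 ((hpi 3 3).const_mul 20)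
    have i4 := iadd i3 ((hpi 2 4).const_mul 15)
    have i5 := iadd i4 ((hpi 1 5).const_mul 6)
    rw [integral_add i5 (hYi 6), integral_add i4 ((hpi 1 5).const_mul 6),
      integral_add i3 ((hpi 2 4).const_mul 15), integral_add i2 ((hpi 3 3).const_mul 20),
      integral_add i1 ((hpi 4 2).const_mul 15),
      integral_add (hTi 6) ((hpi 5 1).const_mul 6), integral_const_mul, integral_const_mul,
      integral_const_mul, integral_const_mul, integral_const_mul, hprod, hprod, hprod, hprod,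
      hprod, hT1, hY1]
    ring

/-- A sixth moment inequality for sums of independent bounded centred variables. -/
lemma six_moment (Y : ι → Ω → ℝ) (hm : ∀ i, Measurable (Y i)) (hind : iIndepFun Y P)
    (C : ι → ℝ) (hC : ∀ i ω, |Y i ω| ≤ C i) (h0 : ∀ i, ∫ ω, Y i ω ∂P = 0) (s : Finset ι) :
    (∫ ω, (∑ i ∈ s, Y i ω) ∂P = 0) ∧
    (∫ ω, (∑ i ∈ s, Y i ω) ^ 2 ∂P = ∑ i ∈ s, ∫ ω, |Y i ω| ^ 2 ∂P) ∧
    (|∫ ω, (∑ i ∈ s, Y i ω) ^ 3 ∂P| ≤ ∑ i ∈ s, ∫ ω, |Y i ω| ^ 3 ∂P) ∧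
    (∫ ω, (∑ i ∈ s, Y i ω) ^ 4 ∂P ≤ 3 * (∑ i ∈ s, ∫ ω, |Y i ω| ^ 2 ∂P) ^ 2 +
      ∑ i ∈ s, ∫ ω, |Y i ω| ^ 4 ∂P) ∧
    (∫ ω, (∑ i ∈ s, Y i ω) ^ 6 ∂P ≤ 45 * (∑ i ∈ s, ∫ ω, |Y i ω| ^ 2 ∂P) ^ 3 +
      30 * ((∑ i ∈ s, ∫ ω, |Y i ω| ^ 2 ∂P) * ∑ i ∈ s, ∫ ω, |Y i ω| ^ 4 ∂P) +
      20 * (∑ i ∈ s, ∫ ω, |Y i ω| ^ 3 ∂P) ^ 2 + ∑ i ∈ s, ∫ ω, |Y i ω| ^ 6 ∂P) := by
  classical
  induction s using Finset.induction_on with
  | empty => simp
  | insert a s ha ih =>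
    obtain ⟨h1, h2, h3, h4, h6⟩ := ih
    set T : Ω → ℝ := fun ω => ∑ i ∈ s, Y i ω with hTdef
    have hTm : Measurable T := Finset.measurable_fun_sum s fun i _ => hm i
    have hTC : ∀ ω, |T ω| ≤ ∑ i ∈ s, C i := fun ω =>
      (Finset.abs_sum_le_sum_abs _ _).trans (Finset.sum_le_sum fun i _ => hC i ω)
    have hindT : IndepFun T (Y a) P := by
      have h := hind.indepFun_finsetSum_of_notMem hm ha
      have he : (∑ j ∈ s, Y j) = T := by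
        funext ω; simp [hTdef, Finset.sum_apply]
      rwa [he] at h
    obtain ⟨g1, g2, g3, g4, g6⟩ := moments_add hTm (hm a) hTC (hC a) hindT h1 (h0 a)
    have hsum : ∀ ω, ∑ i ∈ insert a s, Y i ω = T ω + Y a ω := by
      intro ω; rw [Finset.sum_insert ha, add_comm]
    have e2 : ∫ ω, |Y a ω| ^ 2 ∂P = ∫ ω, Y a ω ^ 2 ∂P := by simp only [sq_abs]
    have e4 : ∫ ω, |Y a ω| ^ 4 ∂P = ∫ ω, Y a ω ^ 4 ∂P := by
      refine integral_congr_ae (ae_of_all _ fun ω => ?_)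
      exact (even_iff_two_dvd.2 (by norm_num : 2 ∣ 4)).pow_abs (Y a ω)
    have e6 : ∫ ω, |Y a ω| ^ 6 ∂P = ∫ ω, Y a ω ^ 6 ∂P := by
      refine integral_congr_ae (ae_of_all _ fun ω => ?_)
      exact (even_iff_two_dvd.2 (by norm_num : 2 ∣ 6)).pow_abs (Y a ω)
    have e3 : |∫ ω, Y a ω ^ 3 ∂P| ≤ ∫ ω, |Y a ω| ^ 3 ∂P := by
      refine abs_integral_le_integral_abs.trans (le_of_eq ?_)
      refine integral_congr_ae (ae_of_all _ fun ω => ?_)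
      simp [abs_pow]
    simp only [hsum, Finset.sum_insert ha]
    rw [e2, e4, e6]
    set s2 := ∑ i ∈ s, ∫ ω, |Y i ω| ^ 2 ∂P with hs2
    set s3 := ∑ i ∈ s, ∫ ω, |Y i ω| ^ 3 ∂P with hs3
    set s4 := ∑ i ∈ s, ∫ ω, |Y i ω| ^ 4 ∂P with hs4
    set s6 := ∑ i ∈ s, ∫ ω, |Y i ω| ^ 6 ∂P with hs6
    set y2 := ∫ ω, Y a ω ^ 2 ∂P with hy2
    set y3 := ∫ ω, |Y a ω| ^ 3 ∂P with hy3
    set y4 := ∫ ω, Y a ω ^ 4 ∂P with hy4
    set y6 := ∫ ω, Y a ω ^ 6 ∂P with hy6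
    have ns2 : 0 ≤ s2 := Finset.sum_nonneg fun i _ => integral_nonneg fun ω => by positivity
    have ns3 : 0 ≤ s3 := Finset.sum_nonneg fun i _ => integral_nonneg fun ω => by positivity
    have ns4 : 0 ≤ s4 := Finset.sum_nonneg fun i _ => integral_nonneg fun ω => by positivity
    have ny2 : 0 ≤ y2 := integral_nonneg fun ω => by positivity
    have ny3 : 0 ≤ y3 := integral_nonneg fun ω => by positivity
    have ny4 : 0 ≤ y4 := integral_nonneg fun ω => by positivity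
    refine ⟨g1, ?_, ?_, ?_, ?_⟩
    · rw [g2, h2]; ring
    · rw [g3]
      refine (abs_add_le _ _).trans ?_
      linarith
    · rw [g4, h2]
      nlinarith [mul_nonneg ny2 ny2, mul_nonneg ns2 ny2]
    · rw [g6, h2]
      have hcross : (∫ ω, T ω ^ 3 ∂P) * (∫ ω, Y a ω ^ 3 ∂P) ≤ s3 * y3 := by
        refine (le_abs_self _).trans ?_
        rw [abs_mul]
        exact mul_le_mul h3 e3 (abs_nonneg _) ns3
      have h4' : (∫ ω, T ω ^ 4 ∂P) * y2 ≤ (3 * s2 ^ 2 + s4) * y2 :=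
        mul_le_mul_of_nonneg_right h4 ny2
      have p1 := mul_nonneg ns2 ny4
      have p2 := mul_nonneg ny2 ns4
      have p3 := mul_nonneg ny2 ny4
      have p4 := mul_nonneg ns3 ny3
      have p5 : 0 ≤ s2 ^ 2 * y2 := by positivity
      have p6 : 0 ≤ s2 * y2 ^ 2 := by positivity
      have p7 : 0 ≤ y2 ^ 3 := by positivity
      have p8 : 0 ≤ y3 ^ 2 := by positivity
      nlinarith

end Pool.Agent.Lib_helper99.Sandpile
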