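import Pool.Agent.Lib_helper99.Sandpile.Walk
import Pool.Agent.Lib_helper99.Sandpile.Moment

set_option autoImplicit false

open MeasureTheory ProbabilityTheory Finset

namespace Pool.Agent.Lib_helper99.Sandpile

/-- truncated positive part -/
noncomputable def tr (s r : ℝ) : ℝ := if r ≤ s then max r 0 else 0
/-- large part -/
noncomputable def bg (s r : ℝ) : ℝ := if r ≤ s then 0 else max r 0
/-- negative part -/
noncomputable def ng (r : ℝ) : ℝ := max (-r) 0

lemma tr_add_bg (s r : ℝ) : tr s r + bg s r = max r 0 := by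
  unfold tr bg; split_ifs <;> simp
lemma tr_nonneg (s r : ℝ) : 0 ≤ tr s r := by unfold tr; split_ifs <;> simp
lemma bg_nonneg (s r : ℝ) : 0 ≤ bg s r := by unfold bg; split_ifs <;> simp
lemma ng_nonneg (r : ℝ) : 0 ≤ ng r := le_max_right _ _
lemma tr_le {s : ℝ} (hs : 0 ≤ s) (r : ℝ) : tr s r ≤ s := by
  unfold tr; split_ifs with h
  · exact max_le h hs
  · exact hs
lemma tr_le_pos (s r : ℝ) : tr s r ≤ max r 0 := by
  have := tr_add_bg s r; have := bg_nonneg s r; linarith
lemma bg_le_pos (s r : ℝ) : bg s r ≤ max r 0 := by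
  have := tr_add_bg s r; have := tr_nonneg s r; linarith
lemma measurable_tr (s : ℝ) : Measurable (tr s) := by
  unfold tr
  exact Measurable.ite measurableSet_Iic (measurable_id.max measurable_const) measurable_const
lemma measurable_bg (s : ℝ) : Measurable (bg s) := by
  unfold bg
  exact Measurable.ite measurableSet_Iic measurable_const (measurable_id.max measurable_const)
lemma measurable_ng : Measurable ng := by
  unfold ng
  exact measurable_id.neg.max measurable_const

section block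

variable {V : Type*} {G : SimpleGraph V} [G.LocallyFinite] [DecidableEq V]
variable {Ω : Type*} [MeasurableSpace Ω] {P : Measure Ω} [IsProbabilityMeasure P]
variable {ζ : V → Ω → ℝ} {μ0 : Measure ℝ} [IsProbabilityMeasure μ0]

/-- the block functional -/
noncomputable def Bf (G : SimpleGraph V) [G.LocallyFinite] (ζ : V → Ω → ℝ) (t : ℕ) (l : List V)
    (ω : Ω) : ℝ :=
  ∑ y ∈ l.toFinset, (max (ζ y ω) 0 * ((l.count y : ℝ) / G.degree y) -
    ng (ζ y ω) * (((l.take t).count y : ℝ) / G.degree y))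

omit [MeasurableSpace Ω] [DecidableEq V] in
lemma wt_le (hpos : ∀ x, 0 < G.degree x) (y : V) (c : ℕ) : (c : ℝ) / G.degree y ≤ c := by
  have h : (1 : ℝ) ≤ G.degree y := by exact_mod_cast hpos y
  exact div_le_self (Nat.cast_nonneg _) h

lemma count_take_le (l : List V) (t : ℕ) (y : V) : (l.take t).count y ≤ l.count y :=
  (List.take_sublist t l).count_le y

omit [IsProbabilityMeasure P] [IsProbabilityMeasure μ0] [DecidableEq V] in
lemma int_comp (hm : ∀ y, Measurable (ζ y)) (hmap : ∀ y, P.map (ζ y) = μ0) {φ : ℝ → ℝ}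
    (hφ : Measurable φ) (y : V) : ∫ ω, φ (ζ y ω) ∂P = ∫ r, φ r ∂μ0 := by
  rw [← hmap y, integral_map (hm y).aemeasurable hφ.aestronglyMeasurable]

omit [IsProbabilityMeasure P] [IsProbabilityMeasure μ0] [DecidableEq V] in
lemma integrable_comp (hm : ∀ y, Measurable (ζ y)) (hmap : ∀ y, P.map (ζ y) = μ0) {φ : ℝ → ℝ}
    (hφ : Integrable φ μ0) (y : V) : Integrable (fun ω => φ (ζ y ω)) P := by
  rw [← hmap y] at hφ
  exact hφ.comp_measurable (hm y)

/-- constants -/
noncomputable def cj (μ0 : Measure ℝ) (s : ℝ) (j : ℕ) : ℝ :=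
  2 ^ j * (∫ r, (tr s r + ng r) ^ j ∂μ0 + ((∫ r, tr s r ∂μ0) + ∫ r, ng r ∂μ0) ^ j)

lemma integrable_of_bdd_on {μ : Measure ℝ} [IsProbabilityMeasure μ] {φ : ℝ → ℝ}
    (hφ : Measurable φ) {C : ℝ} (h : ∀ᵐ r ∂μ, |φ r| ≤ C) : Integrable φ μ :=
  (integrable_const C).mono' hφ.aestronglyMeasurable (by simpa [Real.norm_eq_abs] using h)

/-- sixth moment of the centred block sum for a fixed path -/
lemma block_six (hpos : ∀ x, 0 < G.degree x) (hm : ∀ y, Measurable (ζ y))
    (hi : iIndepFun ζ P) (hmap : ∀ y, P.map (ζ y) = μ0) {K : ℝ} (hK : ∀ y ω, -K ≤ ζ y ω)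
    (hK' : ∀ᵐ r ∂μ0, -K ≤ r) (hK0 : 0 ≤ K) {s : ℝ} (hs : 0 ≤ s) (t : ℕ) (l : List V) :
    ∫ ω, (∑ y ∈ l.toFinset, ((tr s (ζ y ω) - ∫ r, tr s r ∂μ0) * ((l.count y : ℝ) / G.degree y) -
      (ng (ζ y ω) - ∫ r, ng r ∂μ0) * (((l.take t).count y : ℝ) / G.degree y))) ^ 6 ∂P ≤
    45 * (cj μ0 s 2 * Lm 2 l) ^ 3 + 30 * ((cj μ0 s 2 * Lm 2 l) * (cj μ0 s 4 * Lm 4 l)) +
      20 * (cj μ0 s 3 * Lm 3 l) ^ 2 + cj μ0 s 6 * Lm 6 l := by
  set τ := ∫ r, tr s r ∂μ0 with hτ
  set b := ∫ r, ng r ∂μ0 with hb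
  have hτ0 : 0 ≤ τ := integral_nonneg fun r => tr_nonneg s r
  have hb0 : 0 ≤ b := integral_nonneg fun r => ng_nonneg r
  set φ : V → ℝ → ℝ := fun y r => (tr s r - τ) * ((l.count y : ℝ) / G.degree y) -
      (ng r - b) * (((l.take t).count y : ℝ) / G.degree y) with hφ
  have hφm : ∀ y, Measurable (φ y) := fun y =>
    (((measurable_tr s).sub_const τ).mul_const _).sub ((measurable_ng.sub_const b).mul_const _)
  have hngK : ∀ r, -K ≤ r → ng r ≤ K := fun r hr => max_le (by linarith) hK0
  -- pointwise bound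
  have hpt : ∀ y r, |φ y r| ≤ (l.count y : ℝ) * ((tr s r + ng r) + (τ + b)) := by
    intro y r
    have h1 : |(tr s r - τ)| ≤ tr s r + τ := by
      rw [abs_le]; constructor <;> linarith [tr_nonneg s r]
    have h2 : |(ng r - b)| ≤ ng r + b := by
      rw [abs_le]; constructor <;> linarith [ng_nonneg r]
    have w1 : (l.count y : ℝ) / G.degree y ≤ l.count y := wt_le hpos y _
    have w2 : ((l.take t).count y : ℝ) / G.degree y ≤ l.count y :=
      (wt_le hpos y _).trans (Nat.cast_le.2 (count_take_le l t y))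
    have w10 : 0 ≤ (l.count y : ℝ) / G.degree y := by positivity
    have w20 : 0 ≤ ((l.take t).count y : ℝ) / G.degree y := by positivity
    have c0 : (0 : ℝ) ≤ l.count y := Nat.cast_nonneg _
    calc |φ y r| ≤ |(tr s r - τ) * ((l.count y : ℝ) / G.degree y)| +
          |(ng r - b) * (((l.take t).count y : ℝ) / G.degree y)| := abs_sub _ _
      _ = |tr s r - τ| * ((l.count y : ℝ) / G.degree y) +
          |ng r - b| * (((l.take t).count y : ℝ) / G.degree y) := by
          rw [abs_mul, abs_mul, abs_of_nonneg w10, abs_of_nonneg w20]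
      _ ≤ (tr s r + τ) * l.count y + (ng r + b) * l.count y := by
          have := tr_nonneg s r
          have := ng_nonneg r
          gcongr
      _ = _ := by ring
  have hbd : ∀ y ω, |φ y (ζ y ω)| ≤ (l.count y : ℝ) * ((s + K) + (τ + b)) := by
    intro y ω
    refine (hpt y _).trans ?_
    have h1 := tr_le hs (ζ y ω)
    have h2 := hngK _ (hK y ω)
    gcongr
  have hcent : ∀ y, ∫ ω, φ y (ζ y ω) ∂P = 0 := by
    intro y
    rw [int_comp hm hmap (hφm y) y]
    have i1 : Integrable (tr s) μ0 := integrable_of_bdd_on (measurable_tr s) (C := s)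
      (ae_of_all _ fun r => by rw [abs_of_nonneg (tr_nonneg s r)]; exact tr_le hs r)
    have i2 : Integrable ng μ0 := integrable_of_bdd_on measurable_ng (C := K)
      (hK'.mono fun r hr => by rw [abs_of_nonneg (ng_nonneg r)]; exact hngK r hr)
    have i1' : Integrable (fun r => tr s r - τ) μ0 := i1.sub (integrable_const τ)
    have i2' : Integrable (fun r => ng r - b) μ0 := i2.sub (integrable_const b)
    simp only [hφ]
    rw [integral_sub (i1'.mul_const _) (i2'.mul_const _), integral_mul_const, integral_mul_const,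
      integral_sub i1 (integrable_const τ), integral_sub i2 (integrable_const b)]
    simp [hτ, hb]
  have hind : iIndepFun (fun y ω => φ y (ζ y ω)) P := hi.comp φ hφm
  have key := (six_moment (P := P) (fun y ω => φ y (ζ y ω)) (fun y => (hφm y).comp (hm y)) hind
    _ hbd hcent l.toFinset).2.2.2.2
  -- moments
  have hmom : ∀ j : ℕ, ∑ y ∈ l.toFinset, ∫ ω, |φ y (ζ y ω)| ^ j ∂P ≤ cj μ0 s j * Lm j l := by
    intro j
    unfold Lm
    rw [Finset.mul_sum]
    refine Finset.sum_le_sum fun y _ => ?_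
    have hψm : Measurable (fun r => |φ y r| ^ j) := (hφm y).abs.pow_const j
    rw [int_comp hm hmap hψm y]
    have i3 : Integrable (fun r => (tr s r + ng r) ^ j) μ0 := by
      refine integrable_of_bdd_on (((measurable_tr s).add measurable_ng).pow_const j)
        (C := (s + K) ^ j) (hK'.mono fun r hr => ?_)
      have h0 : 0 ≤ tr s r + ng r := add_nonneg (tr_nonneg s r) (ng_nonneg r)
      rw [abs_of_nonneg (pow_nonneg h0 j)]
      exact pow_le_pow_left₀ h0 (add_le_add (tr_le hs r) (hngK r hr)) j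
    have hle : ∀ r, |φ y r| ^ j ≤ (l.count y : ℝ) ^ j *
        (2 ^ j * ((tr s r + ng r) ^ j + (τ + b) ^ j)) := by
      intro r
      have h0 : 0 ≤ tr s r + ng r := add_nonneg (tr_nonneg s r) (ng_nonneg r)
      have h1 : 0 ≤ τ + b := add_nonneg hτ0 hb0
      calc |φ y r| ^ j ≤ ((l.count y : ℝ) * ((tr s r + ng r) + (τ + b))) ^ j :=
            pow_le_pow_left₀ (abs_nonneg _) (hpt y r) j
        _ = (l.count y : ℝ) ^ j * ((tr s r + ng r) + (τ + b)) ^ j := by rw [mul_pow]
        _ ≤ (l.count y : ℝ) ^ j * (2 ^ (j - 1) * ((tr s r + ng r) ^ j + (τ + b) ^ j)) := by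
            gcongr
            exact add_pow_le h0 h1 j
        _ ≤ _ := by
            gcongr
            · norm_num
            · omega
    calc ∫ r, |φ y r| ^ j ∂μ0 ≤ ∫ r, (l.count y : ℝ) ^ j *
          (2 ^ j * ((tr s r + ng r) ^ j + (τ + b) ^ j)) ∂μ0 := by
          refine integral_mono_of_nonneg (ae_of_all _ fun r => by positivity) ?_
            (ae_of_all _ hle)
          exact ((i3.add (integrable_const _)).const_mul _).const_mul _
      _ = cj μ0 s j * (l.count y : ℝ) ^ j := by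
          rw [integral_const_mul, integral_const_mul, integral_add i3 (integrable_const _)]
          unfold cj
          simp only [integral_const, probReal_univ, one_smul]
          ring
  have n2 : 0 ≤ ∑ y ∈ l.toFinset, ∫ ω, |φ y (ζ y ω)| ^ 2 ∂P :=
    Finset.sum_nonneg fun y _ => integral_nonneg fun ω => by positivity
  have n3 : 0 ≤ ∑ y ∈ l.toFinset, ∫ ω, |φ y (ζ y ω)| ^ 3 ∂P :=
    Finset.sum_nonneg fun y _ => integral_nonneg fun ω => by positivity
  have n4 : 0 ≤ ∑ y ∈ l.toFinset, ∫ ω, |φ y (ζ y ω)| ^ 4 ∂P :=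
    Finset.sum_nonneg fun y _ => integral_nonneg fun ω => by positivity
  refine key.trans ?_
  have m2 := hmom 2
  have m3 := hmom 3
  have m4 := hmom 4
  have m6 := hmom 6
  have m2' := n2.trans m2
  gcongr

omit [MeasurableSpace Ω] in
lemma sum_count_take (t : ℕ) (l : List V) :
    ∑ y ∈ l.toFinset, ((l.take t).count y : ℝ) = (l.take t).length := by
  rw [← Lm_one]
  unfold Lm
  simp only [pow_one]
  symm
  refine Finset.sum_subset ?_ ?_
  · intro y hy
    rw [List.mem_toFinset] at hy ⊢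
    exact List.mem_of_mem_take hy
  · intro y _ hy
    rw [List.mem_toFinset] at hy
    rw [List.count_eq_zero.2 hy]
    simp

lemma pos_part_le {x s0 u : ℝ} (hu : 0 < u) (hus : u ≤ s0) : max x 0 ≤ (x + s0) ^ 6 / u ^ 5 := by
  have hs0 : 0 < s0 := lt_of_lt_of_le hu hus
  have h6 : 0 ≤ (x + s0) ^ 6 := by positivity
  rcases le_total x 0 with hx | hx
  · rw [max_eq_right hx]; positivity
  · rw [max_eq_left hx, le_div_iff₀ (by positivity)]
    have h1 : u ^ 5 ≤ (x + s0) ^ 5 := pow_le_pow_left₀ hu.le (by linarith) 5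
    calc x * u ^ 5 ≤ (x + s0) * (x + s0) ^ 5 := by
          refine mul_le_mul (by linarith) h1 (by positivity) (by linarith)
      _ = (x + s0) ^ 6 := by ring

/-- bound for the positive part of a long block, for a fixed path -/
lemma block_large (hpos : ∀ x, 0 < G.degree x) {D : ℕ} (hD : ∀ x, G.degree x ≤ D)
    (hm : ∀ y, Measurable (ζ y))
    (hi : iIndepFun ζ P) (hmap : ∀ y, P.map (ζ y) = μ0) {K : ℝ} (hK : ∀ y ω, -K ≤ ζ y ω)
    (hK' : ∀ᵐ r ∂μ0, -K ≤ r) (hK0 : 0 ≤ K) (hint : Integrable (fun r => max r 0) μ0)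
    (hδ : ∫ r, max r 0 ∂μ0 ≤ ∫ r, ng r ∂μ0)
    {s : ℝ} (hs : 0 ≤ s) (t t' : ℕ) (htt : t ≤ t') (l : List V) (hl : l.length = t') {u : ℝ}
    (hu : 0 < u)
    (huδ : u ≤ ((∫ r, ng r ∂μ0) - ∫ r, max r 0 ∂μ0) * t / D - (∫ r, max r 0 ∂μ0) * (t' - t)) :
    ∫ ω, max (Bf G ζ t l ω) 0 ∂P ≤
      (45 * (cj μ0 s 2 * Lm 2 l) ^ 3 + 30 * ((cj μ0 s 2 * Lm 2 l) * (cj μ0 s 4 * Lm 4 l)) +
      20 * (cj μ0 s 3 * Lm 3 l) ^ 2 + cj μ0 s 6 * Lm 6 l) / u ^ 5 + t' * ∫ r, bg s r ∂μ0 := by
  set τ := ∫ r, tr s r ∂μ0 with hτ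
  set b := ∫ r, ng r ∂μ0 with hb
  set m := ∫ r, max r 0 ∂μ0 with hmdef
  have i1 : Integrable (tr s) μ0 := integrable_of_bdd_on (measurable_tr s) (C := s)
      (ae_of_all _ fun r => by rw [abs_of_nonneg (tr_nonneg s r)]; exact tr_le hs r)
  have ibg : Integrable (bg s) μ0 := hint.mono' (measurable_bg s).aestronglyMeasurable
    (ae_of_all _ fun r => by
      rw [Real.norm_eq_abs, abs_of_nonneg (bg_nonneg s r)]; exact bg_le_pos s r)
  have hτm : τ ≤ m := integral_mono i1 hint fun r => tr_le_pos s r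
  have hm0 : 0 ≤ m := integral_nonneg fun r => le_max_right _ _
  set S : Ω → ℝ := fun ω => ∑ y ∈ l.toFinset, ((tr s (ζ y ω) - τ) * ((l.count y : ℝ) / G.degree y) -
      (ng (ζ y ω) - b) * (((l.take t).count y : ℝ) / G.degree y)) with hS
  set E : ℝ := ∑ y ∈ l.toFinset, (τ * ((l.count y : ℝ) / G.degree y) -
      b * (((l.take t).count y : ℝ) / G.degree y)) with hE
  set R : Ω → ℝ := fun ω => ∑ y ∈ l.toFinset, bg s (ζ y ω) * ((l.count y : ℝ) / G.degree y) with hR
  have hdec : ∀ ω, Bf G ζ t l ω = (S ω + E) + R ω := by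
    intro ω
    simp only [hS, hE, hR, Bf]
    rw [← Finset.sum_add_distrib, ← Finset.sum_add_distrib]
    refine Finset.sum_congr rfl fun y _ => ?_
    rw [← tr_add_bg s (ζ y ω)]
    ring
  -- the drift
  have hEu : u ≤ -E := by
    have hlen : (l.take t).length = t := by
      rw [List.length_take, hl]; exact min_eq_left htt
    have h1 : ∑ y ∈ l.toFinset, ((l.count y : ℝ) / G.degree y) -
        ∑ y ∈ l.toFinset, (((l.take t).count y : ℝ) / G.degree y) ≤ t' - t := by
      have e1 : ∑ y ∈ l.toFinset, (l.count y : ℝ) = t' := by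
        have := Lm_one l
        unfold Lm at this
        simp only [pow_one] at this
        rw [this, hl]
      have e2 := sum_count_take t l
      rw [hlen] at e2
      rw [← e1, ← e2, ← Finset.sum_sub_distrib, ← Finset.sum_sub_distrib]
      refine Finset.sum_le_sum fun y _ => ?_
      rw [← sub_div]
      have h0 : (0 : ℝ) ≤ (l.count y : ℝ) - (l.take t).count y := by
        have : ((l.take t).count y : ℝ) ≤ l.count y := Nat.cast_le.2 (count_take_le l t y)
        linarith
      exact div_le_self h0 (by exact_mod_cast hpos y)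
    have h2 : (t : ℝ) / D ≤ ∑ y ∈ l.toFinset, (((l.take t).count y : ℝ) / G.degree y) := by
      have e2 := sum_count_take t l
      rw [hlen] at e2
      rw [← e2, Finset.sum_div]
      refine Finset.sum_le_sum fun y _ => ?_
      exact div_le_div_of_nonneg_left (Nat.cast_nonneg _) (by exact_mod_cast hpos y)
        (by exact_mod_cast hD y)
    have h3 : 0 ≤ ∑ y ∈ l.toFinset, ((l.count y : ℝ) / G.degree y) :=
      Finset.sum_nonneg fun y _ => by positivity
    have hEeq : -E = b * ∑ y ∈ l.toFinset, (((l.take t).count y : ℝ) / G.degree y) -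
        τ * ∑ y ∈ l.toFinset, ((l.count y : ℝ) / G.degree y) := by
      rw [hE, Finset.sum_sub_distrib, ← Finset.mul_sum, ← Finset.mul_sum]
      ring
    rw [hEeq]
    set Λ' := ∑ y ∈ l.toFinset, ((l.count y : ℝ) / G.degree y)
    set Λ := ∑ y ∈ l.toFinset, (((l.take t).count y : ℝ) / G.degree y)
    have h4 : τ * Λ' ≤ m * Λ' := mul_le_mul_of_nonneg_right hτm h3
    have h5 : m * (Λ' - Λ) ≤ m * (t' - t) := mul_le_mul_of_nonneg_left h1 hm0
    have h6 : (b - m) * (t / D) ≤ (b - m) * Λ := mul_le_mul_of_nonneg_left h2 (by linarith)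
    have h7 : (b - m) * t / D = (b - m) * (t / D) := by ring
    rw [h7] at huδ
    linarith
  -- pointwise
  have hpt : ∀ ω, max (Bf G ζ t l ω) 0 ≤ S ω ^ 6 / u ^ 5 +
      ∑ y ∈ l.toFinset, (l.count y : ℝ) * bg s (ζ y ω) := by
    intro ω
    have h1 := pos_part_le (x := S ω + E) hu hEu
    have e1 : S ω + E + -E = S ω := by ring
    rw [e1] at h1
    have h2 : R ω ≤ ∑ y ∈ l.toFinset, (l.count y : ℝ) * bg s (ζ y ω) := by
      refine Finset.sum_le_sum fun y _ => ?_
      rw [mul_comm]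
      exact mul_le_mul_of_nonneg_right (wt_le hpos y _) (bg_nonneg _ _)
    have h3 : 0 ≤ R ω := Finset.sum_nonneg fun y _ => mul_nonneg (bg_nonneg _ _) (by positivity)
    rw [hdec ω]
    have h4 : max (S ω + E + R ω) 0 ≤ max (S ω + E) 0 + R ω := by
      refine max_le ?_ ?_
      · linarith [le_max_left (S ω + E) 0]
      · linarith [le_max_right (S ω + E) 0]
    linarith
  -- integrate
  have hSm : Measurable S := by
    refine Finset.measurable_fun_sum _ fun y _ => ?_
    exact ((((measurable_tr s).comp (hm y)).sub_const τ).mul_const _).sub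
      (((measurable_ng.comp (hm y)).sub_const b).mul_const _)
  have hSb : ∀ ω, |S ω| ≤ ∑ y ∈ l.toFinset, (l.count y : ℝ) * ((s + K) + (|τ| + |b|)) := by
    intro ω
    refine (Finset.abs_sum_le_sum_abs _ _).trans (Finset.sum_le_sum fun y _ => ?_)
    have w1 : (l.count y : ℝ) / G.degree y ≤ l.count y := wt_le hpos y _
    have w2 : ((l.take t).count y : ℝ) / G.degree y ≤ l.count y :=
      (wt_le hpos y _).trans (Nat.cast_le.2 (count_take_le l t y))
    have w10 : 0 ≤ (l.count y : ℝ) / G.degree y := by positivity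
    have w20 : 0 ≤ ((l.take t).count y : ℝ) / G.degree y := by positivity
    have a1 : |tr s (ζ y ω) - τ| ≤ s + |τ| := by
      refine (abs_sub _ _).trans (add_le_add ?_ le_rfl)
      rw [abs_of_nonneg (tr_nonneg _ _)]; exact tr_le hs _
    have a2 : |ng (ζ y ω) - b| ≤ K + |b| := by
      refine (abs_sub _ _).trans (add_le_add ?_ le_rfl)
      rw [abs_of_nonneg (ng_nonneg _)]
      exact max_le (by linarith [hK y ω]) hK0
    calc _ ≤ |(tr s (ζ y ω) - τ) * ((l.count y : ℝ) / G.degree y)| +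
          |(ng (ζ y ω) - b) * (((l.take t).count y : ℝ) / G.degree y)| := abs_sub _ _
      _ = |tr s (ζ y ω) - τ| * ((l.count y : ℝ) / G.degree y) +
          |ng (ζ y ω) - b| * (((l.take t).count y : ℝ) / G.degree y) := by
          rw [abs_mul, abs_mul, abs_of_nonneg w10, abs_of_nonneg w20]
      _ ≤ (s + |τ|) * l.count y + (K + |b|) * l.count y := by gcongr
      _ = _ := by ring
  have hS6 : Integrable (fun ω => S ω ^ 6) P := integrable_pow_of_bdd hSm hSb 6
  have hbgi : ∀ y, Integrable (fun ω => bg s (ζ y ω)) P := fun y => integrable_comp hm hmap ibg y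
  have hRi : Integrable (fun ω => ∑ y ∈ l.toFinset, (l.count y : ℝ) * bg s (ζ y ω)) P :=
    integrable_finsetSum _ fun y _ => (hbgi y).const_mul _
  have hsix := block_six (P := P) hpos hm hi hmap hK hK' hK0 hs t l
  calc ∫ ω, max (Bf G ζ t l ω) 0 ∂P
      ≤ ∫ ω, (S ω ^ 6 / u ^ 5 + ∑ y ∈ l.toFinset, (l.count y : ℝ) * bg s (ζ y ω)) ∂P :=
        integral_mono_of_nonneg (ae_of_all _ fun ω => le_max_right _ _)
          ((hS6.div_const _).add hRi) (ae_of_all _ hpt)
    _ = (∫ ω, S ω ^ 6 ∂P) / u ^ 5 + ∑ y ∈ l.toFinset, (l.count y : ℝ) * ∫ r, bg s r ∂μ0 := by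
        rw [integral_add (hS6.div_const _) hRi, integral_div,
          integral_finsetSum _ fun y _ => (hbgi y).const_mul _]
        congr 1
        refine Finset.sum_congr rfl fun y _ => ?_
        rw [integral_const_mul, int_comp hm hmap (measurable_bg s) y]
    _ = (∫ ω, S ω ^ 6 ∂P) / u ^ 5 + t' * ∫ r, bg s r ∂μ0 := by
        rw [← Finset.sum_mul]
        have := Lm_one l
        unfold Lm at this
        simp only [pow_one] at this
        rw [this, hl]
    _ ≤ _ := by
        gcongr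

/-- crude bound for the positive part of a block, for a fixed path -/
lemma block_small (hpos : ∀ x, 0 < G.degree x)
    (hm : ∀ y, Measurable (ζ y)) (hmap : ∀ y, P.map (ζ y) = μ0)
    (hint : Integrable (fun r => max r 0) μ0) (t t' : ℕ) (l : List V) (hl : l.length = t') :
    ∫ ω, max (Bf G ζ t l ω) 0 ∂P ≤ t' * ∫ r, max r 0 ∂μ0 := by
  have hpi : ∀ y, Integrable (fun ω => max (ζ y ω) 0) P := fun y => integrable_comp hm hmap hint y
  have hpt : ∀ ω, max (Bf G ζ t l ω) 0 ≤ ∑ y ∈ l.toFinset, (l.count y : ℝ) * max (ζ y ω) 0 := by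
    intro ω
    refine max_le ?_ (Finset.sum_nonneg fun y _ => by positivity)
    unfold Bf
    refine Finset.sum_le_sum fun y _ => ?_
    have h1 : 0 ≤ ng (ζ y ω) * (((l.take t).count y : ℝ) / G.degree y) :=
      mul_nonneg (ng_nonneg _) (by positivity)
    have h2 : max (ζ y ω) 0 * ((l.count y : ℝ) / G.degree y) ≤ max (ζ y ω) 0 * l.count y :=
      mul_le_mul_of_nonneg_left (wt_le hpos y _) (le_max_right _ _)
    linarith
  calc ∫ ω, max (Bf G ζ t l ω) 0 ∂P ≤ ∫ ω, ∑ y ∈ l.toFinset, (l.count y : ℝ) * max (ζ y ω) 0 ∂P :=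
        integral_mono_of_nonneg (ae_of_all _ fun ω => le_max_right _ _)
          (integrable_finsetSum _ fun y _ => (hpi y).const_mul _) (ae_of_all _ hpt)
    _ = ∑ y ∈ l.toFinset, (l.count y : ℝ) * ∫ r, max r 0 ∂μ0 := by
        rw [integral_finsetSum _ fun y _ => (hpi y).const_mul _]
        refine Finset.sum_congr rfl fun y _ => ?_
        rw [integral_const_mul, int_comp hm hmap (φ := fun r => max r 0) (by fun_prop) y]
    _ = t' * ∫ r, max r 0 ∂μ0 := by
        rw [← Finset.sum_mul]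
        have := Lm_one l
        unfold Lm at this
        simp only [pow_one] at this
        rw [this, hl]

end block

end Pool.Agent.Lib_helper99.Sandpile
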