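import Mathlib

set_option autoImplicit false

open Finset

namespace Pool.Agent.Lib_helper99.Sandpile

section balls

variable {V : Type*} (G : SimpleGraph V) [G.LocallyFinite]

lemma finite_dist_le (hconn : G.Connected) (y : V) (n : ℕ) : {w | G.dist y w ≤ n}.Finite := by
  classical
  induction n with
  | zero =>
    refine (Set.finite_singleton y).subset fun w hw => ?_
    have h0 : G.dist y w = 0 := Nat.le_zero.1 hw
    have := (hconn.dist_eq_zero_iff).1 h0
    exact this.symm
  | succ n ih =>
    have h2 : (⋃ w' ∈ {w | G.dist y w ≤ n}, (G.neighborFinset w' : Set V)).Finite :=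
      ih.biUnion fun w' _ => Finset.finite_toSet _
    refine (ih.union h2).subset fun w hw => ?_
    by_cases hle : G.dist y w ≤ n
    · exact Or.inl hle
    · right
      have heq : G.dist y w = n + 1 := le_antisymm hw (by omega)
      obtain ⟨p, hp⟩ := hconn.exists_walk_length_eq_dist y w
      rw [heq] at hp
      have hnil : ¬ p.Nil := by
        intro hn
        have := SimpleGraph.Walk.length_eq_zero_iff.2 hn
        omega
      rw [Set.mem_iUnion₂]
      refine ⟨p.penultimate, ?_, ?_⟩
      · have h3 : p.dropLast.length = n := by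
          have := SimpleGraph.Walk.length_dropLast_add_one hnil
          omega
        have := SimpleGraph.dist_le p.dropLast
        show G.dist y p.penultimate ≤ n
        omega
      · have := p.adj_penultimate hnil
        simpa using this

lemma exists_far (hinf : Infinite V) (hconn : G.Connected) (y : V) (r : ℕ) :
    ∃ z, r ≤ G.dist y z := by
  by_contra hcon
  push Not at hcon
  have h : (Set.univ : Set V) ⊆ {w | G.dist y w ≤ r} := fun w _ => (hcon w).le
  exact Set.infinite_univ (finite_dist_le G hconn y r |>.subset h)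

/-- there are arbitrarily long injective paths from every vertex -/
lemma exists_path (hinf : Infinite V) (hconn : G.Connected) (y : V) (r : ℕ) :
    ∃ x : ℕ → V, x 0 = y ∧ (∀ i < r, G.Adj (x i) (x (i + 1))) ∧
      Set.InjOn x {i | i ≤ r} := by
  obtain ⟨z, hz⟩ := exists_far G hinf hconn y r
  obtain ⟨p, hp⟩ := hconn.exists_walk_length_eq_dist y z
  have hpath := p.isPath_of_length_eq_dist hp
  refine ⟨p.getVert, p.getVert_zero, ?_, ?_⟩
  · intro i hi
    exact p.adj_getVert_succ (by omega)
  · refine hpath.getVert_injOn.mono ?_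
    intro i hi
    simp only [Set.mem_ofPred_eq] at hi ⊢
    omega

lemma countable_of_connected (hconn : G.Connected) : Countable V := by
  classical
  obtain ⟨y⟩ := hconn.nonempty
  have h : (Set.univ : Set V) = ⋃ n : ℕ, {w | G.dist y w ≤ n} := by
    ext w
    simp only [Set.mem_univ, Set.mem_iUnion, true_iff]
    exact ⟨G.dist y w, le_refl (G.dist y w)⟩
  rw [← Set.countable_univ_iff, h]
  exact Set.countable_iUnion fun n => (finite_dist_le G hconn y n).countable

end balls

section avg

variable {V : Type*} (G : SimpleGraph V) [G.LocallyFinite]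

/-- average over the neighbours -/
noncomputable def avg (f : V → ℝ) (x : V) : ℝ := (∑ y ∈ G.neighborFinset x, f y) / G.degree x

variable {G}

lemma avg_mono {f g : V → ℝ} {x : V} (h : ∀ y, G.Adj x y → f y ≤ g y) : avg G f x ≤ avg G g x := by
  unfold avg
  refine div_le_div_of_nonneg_right (Finset.sum_le_sum fun y hy => h y ?_) (Nat.cast_nonneg _)
  simpa using hy

lemma avg_congr {f g : V → ℝ} {x : V} (h : ∀ y, G.Adj x y → f y = g y) : avg G f x = avg G g x :=
  le_antisymm (avg_mono fun y hy => (h y hy).le) (avg_mono fun y hy => (h y hy).ge)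

lemma avg_nonneg {f : V → ℝ} {x : V} (h : ∀ y, G.Adj x y → 0 ≤ f y) : 0 ≤ avg G f x := by
  unfold avg
  refine div_nonneg (Finset.sum_nonneg fun y hy => h y ?_) (Nat.cast_nonneg _)
  simpa using hy

lemma avg_const {x : V} (hx : 0 < G.degree x) (a : ℝ) : avg G (fun _ => a) x = a := by
  unfold avg
  have h : (G.degree x : ℝ) ≠ 0 := by exact_mod_cast hx.ne'
  rw [Finset.sum_const, SimpleGraph.card_neighborFinset_eq_degree, nsmul_eq_mul]
  field_simp

lemma avg_add (f g : V → ℝ) (x : V) : avg G (fun y => f y + g y) x = avg G f x + avg G g x := by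
  unfold avg
  rw [Finset.sum_add_distrib, add_div]

lemma avg_const_mul (a : ℝ) (f : V → ℝ) (x : V) :
    avg G (fun y => a * f y) x = a * avg G f x := by
  unfold avg
  rw [← Finset.mul_sum, mul_div_assoc]

lemma avg_le_const {f : V → ℝ} {x : V} (hx : 0 < G.degree x) {a : ℝ}
    (h : ∀ y, G.Adj x y → f y ≤ a) : avg G f x ≤ a := by
  rw [← avg_const hx a]
  exact avg_mono h

lemma degree_mul_avg {f : V → ℝ} {x : V} (hx : 0 < G.degree x) :
    G.degree x * avg G f x = ∑ y ∈ G.neighborFinset x, f y := by
  unfold avg
  have h : (G.degree x : ℝ) ≠ 0 := by exact_mod_cast hx.ne'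
  field_simp

end avg

section green

variable {V : Type*} (G : SimpleGraph V) [G.LocallyFinite] [DecidableEq V]

/-- `gr t y x`: expected number of visits to `y` in the first `t` steps (times `0, …, t-1`) of
simple random walk started at `x` -/
noncomputable def gr (y : V) : ℕ → V → ℝ
  | 0 => fun _ => 0
  | (t + 1) => fun x => (if x = y then 1 else 0) + avg G (gr y t) x

variable {G} (y : V)

lemma gr_nonneg (t : ℕ) (x : V) : 0 ≤ gr G y t x := by
  induction t generalizing x with
  | zero => exact le_refl _
  | succ t ih =>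
    unfold gr
    have := avg_nonneg (G := G) (x := x) (fun z _ => ih z)
    split_ifs <;> linarith

lemma gr_le_succ (t : ℕ) (x : V) : gr G y t x ≤ gr G y (t + 1) x := by
  induction t generalizing x with
  | zero => exact gr_nonneg y 1 x
  | succ t ih =>
    have h : avg G (gr G y t) x ≤ avg G (gr G y (t + 1)) x := avg_mono fun z _ => ih z
    rw [gr, gr]
    linarith

lemma gr_mono {s t : ℕ} (h : s ≤ t) (x : V) : gr G y s x ≤ gr G y t x := by
  induction h with
  | refl => exact le_refl _
  | step _ ih => exact ih.trans (gr_le_succ y _ x)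

/-- maximum principle -/
lemma gr_le_self (hpos : ∀ x, 0 < G.degree x) (t : ℕ) (x : V) : gr G y t x ≤ gr G y t y := by
  induction t generalizing x with
  | zero => exact le_refl _
  | succ t ih =>
    by_cases hx : x = y
    · rw [hx]
    · have h1 : gr G y (t + 1) x = avg G (gr G y t) x := by simp [gr, hx]
      rw [h1]
      refine (avg_le_const (hpos x) fun z _ => ih z).trans ?_
      exact gr_le_succ y t y

/-- finite support -/
lemma gr_support (t : ℕ) : ∃ A : Finset V, ∀ x, x ∉ A → gr G y t x = 0 := by
  induction t with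
  | zero => exact ⟨∅, fun x _ => rfl⟩
  | succ t ih =>
    obtain ⟨A, hA⟩ := ih
    refine ⟨insert y (A.biUnion fun z => G.neighborFinset z), fun x hx => ?_⟩
    simp only [Finset.mem_insert, Finset.mem_biUnion, not_or, not_exists, not_and] at hx
    have h1 : avg G (gr G y t) x = 0 := by
      unfold avg
      rw [Finset.sum_eq_zero, zero_div]
      intro z hz
      refine hA z fun hzA => ?_
      refine hx.2 z hzA ?_
      simpa [SimpleGraph.adj_comm] using hz
    simp [gr, hx.1, h1]

/-- mass bound -/
lemma gr_mass (hpos : ∀ x, 0 < G.degree x) (t : ℕ) (S : Finset V) :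
    ∑ x ∈ S, G.degree x * gr G y t x ≤ G.degree y * t := by
  classical
  induction t generalizing S with
  | zero => simp [gr]
  | succ t ih =>
    have h1 : ∑ x ∈ S, (G.degree x : ℝ) * gr G y (t + 1) x =
        ∑ x ∈ S, (if x = y then (G.degree x : ℝ) else 0) +
          ∑ x ∈ S, ∑ z ∈ G.neighborFinset x, gr G y t z := by
      rw [← Finset.sum_add_distrib]
      refine Finset.sum_congr rfl fun x _ => ?_
      rw [gr, mul_add, degree_mul_avg (hpos x)]
      congr 1
      split_ifs <;> simp
    have h2 : ∑ x ∈ S, (if x = y then (G.degree x : ℝ) else 0) ≤ G.degree y := by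
      rw [Finset.sum_ite_eq' S y (fun x => (G.degree x : ℝ))]
      split_ifs
      · exact le_refl _
      · exact Nat.cast_nonneg _
    have h3 : ∑ x ∈ S, ∑ z ∈ G.neighborFinset x, gr G y t z ≤
        ∑ z ∈ S.biUnion (fun x => G.neighborFinset x), (G.degree z : ℝ) * gr G y t z := by
      set T := S.biUnion (fun x => G.neighborFinset x) with hT
      have h4 : ∀ x ∈ S, ∑ z ∈ G.neighborFinset x, gr G y t z =
          ∑ z ∈ T, if G.Adj x z then gr G y t z else 0 := by
        intro x hx
        rw [← Finset.sum_filter]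
        refine Finset.sum_congr ?_ fun _ _ => rfl
        ext z
        simp only [SimpleGraph.mem_neighborFinset, Finset.mem_filter, hT, Finset.mem_biUnion]
        constructor
        · intro h; exact ⟨⟨x, hx, h⟩, h⟩
        · intro h; exact h.2
      rw [Finset.sum_congr rfl h4, Finset.sum_comm]
      refine Finset.sum_le_sum fun z _ => ?_
      rw [← Finset.sum_filter, Finset.sum_const, nsmul_eq_mul]
      refine mul_le_mul_of_nonneg_right ?_ (gr_nonneg y t z)
      rw [← SimpleGraph.card_neighborFinset_eq_degree]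
      refine Nat.cast_le.2 (Finset.card_le_card fun x hx => ?_)
      simp only [Finset.mem_filter] at hx
      simpa [SimpleGraph.adj_comm] using hx.2
    have h5 := ih (S.biUnion (fun x => G.neighborFinset x))
    rw [h1]
    push_cast
    linarith

/-- energy bound along an injective path -/
lemma gr_energy (hpos : ∀ x, 0 < G.degree x) (t : ℕ) (r : ℕ) (x : ℕ → V)
    (hadj : ∀ i < r, G.Adj (x i) (x (i + 1))) (hinj : Set.InjOn x {i | i ≤ r}) :
    ∑ i ∈ Finset.range r, (gr G y t (x i) - gr G y t (x (i + 1))) ^ 2 ≤
      2 * (G.degree y * gr G y t y) := by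
  classical
  obtain ⟨A, hA⟩ := gr_support (G := G) y t
  set f := gr G y t with hf
  have hf0 : ∀ z, 0 ≤ f z := gr_nonneg y t
  set B : Finset V := (A ∪ A.biUnion (fun z => G.neighborFinset z)) ∪
    (Finset.range (r + 1)).image x with hB
  -- the energy
  have hE : ∑ z ∈ B, (G.degree z : ℝ) * f z * (f z - avg G f z) ≤ G.degree y * f y := by
    have hterm : ∀ z ∈ B, (G.degree z : ℝ) * f z * (f z - avg G f z) ≤
        if z = y then G.degree y * f y else 0 := by
      intro z _
      have h1 : f z ≤ (if z = y then 1 else 0) + avg G f z := by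
        have := gr_le_succ (G := G) y t z
        rwa [gr] at this
      have h0 : 0 ≤ (G.degree z : ℝ) * f z := mul_nonneg (Nat.cast_nonneg _) (hf0 z)
      by_cases hz : z = y
      · rw [if_pos hz] at h1 ⊢
        rw [hz] at h1 h0 ⊢
        nlinarith
      · rw [if_neg hz] at h1 ⊢
        nlinarith
    refine (Finset.sum_le_sum hterm).trans ?_
    rw [Finset.sum_ite_eq' B y (fun _ => (G.degree y : ℝ) * f y)]
    split_ifs
    · exact le_refl _
    · exact mul_nonneg (Nat.cast_nonneg _) (hf0 y)
  have hE2 : ∑ z ∈ B, (G.degree z : ℝ) * f z * (f z - avg G f z) =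
      ∑ z ∈ B, ∑ w ∈ B, if G.Adj z w then f z * (f z - f w) else 0 := by
    refine Finset.sum_congr rfl fun z _ => ?_
    have h1 : (G.degree z : ℝ) * f z * (f z - avg G f z) =
        ∑ w ∈ G.neighborFinset z, f z * (f z - f w) := by
      rw [← Finset.mul_sum, Finset.sum_sub_distrib, Finset.sum_const,
        SimpleGraph.card_neighborFinset_eq_degree, nsmul_eq_mul, ← degree_mul_avg (hpos z)]
      ring
    rw [h1, ← Finset.sum_filter]
    by_cases hz : f z = 0
    · simp [hz]
    · have hzA : z ∈ A := by
        by_contra hcon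
        exact hz (hA z hcon)
      refine Finset.sum_congr ?_ fun _ _ => rfl
      ext w
      simp only [SimpleGraph.mem_neighborFinset, Finset.mem_filter]
      constructor
      · intro h
        refine ⟨?_, h⟩
        rw [hB]
        refine Finset.mem_union_left _ (Finset.mem_union_right _ ?_)
        rw [Finset.mem_biUnion]
        exact ⟨z, hzA, by simpa using h⟩
      · exact fun h => h.2
  have hE3 : 2 * ∑ z ∈ B, ∑ w ∈ B, (if G.Adj z w then f z * (f z - f w) else 0) =
      ∑ z ∈ B, ∑ w ∈ B, if G.Adj z w then (f z - f w) ^ 2 else 0 := by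
    have hsw : ∑ z ∈ B, ∑ w ∈ B, (if G.Adj z w then f z * (f z - f w) else 0) =
        ∑ z ∈ B, ∑ w ∈ B, (if G.Adj z w then f w * (f w - f z) else 0) := by
      rw [Finset.sum_comm]
      refine Finset.sum_congr rfl fun z _ => Finset.sum_congr rfl fun w _ => ?_
      simp [SimpleGraph.adj_comm]
    rw [two_mul]
    nth_rewrite 2 [hsw]
    rw [← Finset.sum_add_distrib]
    refine Finset.sum_congr rfl fun z _ => ?_
    rw [← Finset.sum_add_distrib]
    refine Finset.sum_congr rfl fun w _ => ?_
    split_ifs <;> ring
  have hE4 : ∑ i ∈ Finset.range r, (f (x i) - f (x (i + 1))) ^ 2 ≤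
      ∑ z ∈ B, ∑ w ∈ B, if G.Adj z w then (f z - f w) ^ 2 else 0 := by
    rw [← Finset.sum_product' B B (fun z w => if G.Adj z w then (f z - f w) ^ 2 else 0)]
    have himg : ∑ i ∈ Finset.range r, (f (x i) - f (x (i + 1))) ^ 2 =
        ∑ q ∈ (Finset.range r).image (fun i => (x i, x (i + 1))),
          (if G.Adj q.1 q.2 then (f q.1 - f q.2) ^ 2 else 0) := by
      rw [Finset.sum_image]
      · refine Finset.sum_congr rfl fun i hi => ?_
        rw [if_pos (hadj i (Finset.mem_range.1 hi))]
      · intro i hi j hj hij
        simp only [Prod.mk.injEq] at hij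
        have hi' : i < r := Finset.mem_range.1 (by simpa using hi)
        have hj' : j < r := Finset.mem_range.1 (by simpa using hj)
        exact hinj (by simp; omega) (by simp; omega) hij.1
    rw [himg]
    refine Finset.sum_le_sum_of_subset_of_nonneg ?_ ?_
    · intro q hq
      simp only [Finset.mem_image, Finset.mem_range] at hq
      obtain ⟨i, hi, rfl⟩ := hq
      rw [Finset.mem_product]
      constructor
      · rw [hB]
        refine Finset.mem_union_right _ (Finset.mem_image.2 ⟨i, ?_, rfl⟩)
        rw [Finset.mem_range]; omega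
      · rw [hB]
        refine Finset.mem_union_right _ (Finset.mem_image.2 ⟨i + 1, ?_, rfl⟩)
        rw [Finset.mem_range]; omega
    · intro q _ _
      split_ifs
      · positivity
      · exact le_refl _
  calc ∑ i ∈ Finset.range r, (f (x i) - f (x (i + 1))) ^ 2
      ≤ ∑ z ∈ B, ∑ w ∈ B, if G.Adj z w then (f z - f w) ^ 2 else 0 := hE4
    _ = 2 * ∑ z ∈ B, ∑ w ∈ B, (if G.Adj z w then f z * (f z - f w) else 0) := hE3.symm
    _ = 2 * ∑ z ∈ B, (G.degree z : ℝ) * f z * (f z - avg G f z) := by rw [hE2]
    _ ≤ 2 * (G.degree y * f y) := by linarith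

/-- The Green function bound: at most `4 D r` visits are expected up to time `r^2`. -/
lemma gr_bound (hinf : Infinite V) (hconn : G.Connected) {D : ℕ} (hD : ∀ x, G.degree x ≤ D)
    (hpos : ∀ x, 0 < G.degree x) (t r : ℕ) (hr : 1 ≤ r) (ht : t ≤ r ^ 2) (x : V) :
    gr G y t x ≤ 4 * D * r := by
  refine (gr_le_self y hpos t x).trans ?_
  obtain ⟨p, hp0, hadj, hinj⟩ := exists_path G hinf hconn y r
  have hen := gr_energy y hpos t r p hadj hinj
  set f := gr G y t with hf
  have hf0 : ∀ z, 0 ≤ f z := gr_nonneg y t
  have hDpos : (0 : ℝ) < D := by exact_mod_cast lt_of_lt_of_le (hpos y) (hD y)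
  have hDy : (G.degree y : ℝ) ≤ D := by exact_mod_cast hD y
  have hrpos : (0 : ℝ) < r := by exact_mod_cast hr
  -- telescoping
  have htel : ∀ j ≤ r, f y - f (p j) ≤ r * D + f y / 2 := by
    intro j hj
    have h1 : f y - f (p j) = ∑ i ∈ Finset.range j, (f (p i) - f (p (i + 1))) := by
      rw [Finset.sum_range_sub', hp0]
    have h2 : ∀ i, f (p i) - f (p (i + 1)) ≤ D + (f (p i) - f (p (i + 1))) ^ 2 / (4 * D) := by
      intro i
      set d := f (p i) - f (p (i + 1))
      have h3 : 0 ≤ (d - 2 * D) ^ 2 / (4 * D) := by positivity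
      have h4 : (d - 2 * D) ^ 2 / (4 * D) = d ^ 2 / (4 * D) - d + D := by field_simp; ring
      linarith
    rw [h1]
    calc ∑ i ∈ Finset.range j, (f (p i) - f (p (i + 1)))
        ≤ ∑ i ∈ Finset.range j, ((D : ℝ) + (f (p i) - f (p (i + 1))) ^ 2 / (4 * D)) :=
          Finset.sum_le_sum fun i _ => h2 i
      _ ≤ ∑ i ∈ Finset.range r, ((D : ℝ) + (f (p i) - f (p (i + 1))) ^ 2 / (4 * D)) := by
          refine Finset.sum_le_sum_of_subset_of_nonneg (Finset.range_mono hj) fun i _ _ => ?_
          positivity
      _ = r * D + (∑ i ∈ Finset.range r, (f (p i) - f (p (i + 1))) ^ 2) / (4 * D) := by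
          rw [Finset.sum_add_distrib, Finset.sum_const, Finset.card_range, nsmul_eq_mul,
            Finset.sum_div]
      _ ≤ r * D + (2 * (G.degree y * f y)) / (4 * D) := by gcongr
      _ ≤ r * D + f y / 2 := by
          have : (2 * (G.degree y * f y)) / (4 * D) ≤ f y / 2 := by
            rw [div_le_div_iff₀ (by positivity) (by norm_num)]
            nlinarith [hf0 y, mul_le_mul_of_nonneg_right hDy (hf0 y)]
          linarith
  -- average over the path
  have hmass : ∑ j ∈ Finset.range r, f (p j) ≤ D * t := by
    have h1 : ∑ j ∈ Finset.range r, f (p j) = ∑ z ∈ (Finset.range r).image p, f z := by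
      rw [Finset.sum_image]
      intro i hi j hj hij
      have hi' : i < r := Finset.mem_range.1 (by simpa using hi)
      have hj' : j < r := Finset.mem_range.1 (by simpa using hj)
      exact hinj (by simp; omega) (by simp; omega) hij
    have h2 : ∑ z ∈ (Finset.range r).image p, f z ≤
        ∑ z ∈ (Finset.range r).image p, (G.degree z : ℝ) * f z := by
      refine Finset.sum_le_sum fun z _ => ?_
      have : (1 : ℝ) ≤ G.degree z := by exact_mod_cast hpos z
      nlinarith [hf0 z]
    have h3 := gr_mass (G := G) y hpos t ((Finset.range r).image p)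
    have h4 : (G.degree y : ℝ) * t ≤ D * t := mul_le_mul_of_nonneg_right hDy (Nat.cast_nonneg _)
    rw [h1]
    linarith
  have hsum : ∑ j ∈ Finset.range r, (f y - f (p j)) ≤ r * (r * D + f y / 2) := by
    calc ∑ j ∈ Finset.range r, (f y - f (p j)) ≤ ∑ j ∈ Finset.range r, (r * D + f y / 2) :=
          Finset.sum_le_sum fun j hj => htel j (Finset.mem_range.1 hj).le
      _ = r * (r * D + f y / 2) := by
          rw [Finset.sum_const, Finset.card_range, nsmul_eq_mul]
  rw [Finset.sum_sub_distrib, Finset.sum_const, Finset.card_range, nsmul_eq_mul] at hsum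
  have ht' : (t : ℝ) ≤ r ^ 2 := by exact_mod_cast ht
  have h5 : (r : ℝ) * f y / 2 ≤ D * r ^ 2 + D * r ^ 2 := by nlinarith
  have h6 : (r : ℝ) * f y ≤ r * (4 * D * r) := by nlinarith
  exact le_of_mul_le_mul_left h6 hrpos

end green

end Pool.Agent.Lib_helper99.Sandpile
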