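import Pool.Agent.Lib_helper99.Sandpile.PathSum

set_option autoImplicit false

open MeasureTheory ProbabilityTheory Finset
open scoped ENNReal

namespace Pool.Agent.Lib_helper99.Sandpile

section model

variable {V : Type*} (G : SimpleGraph V) [G.LocallyFinite]

/-- One step of parallel toppling: every vertex keeps mass `min (σ v) 1` and receives
`(σ(w) - 1)⁺ / deg(w)` from each of its neighbours `w`. -/
noncomputable def topple (σ : V → ℝ) (v : V) : ℝ :=
  min (σ v) 1 + ∑ w ∈ G.neighborFinset v, max (σ w - 1) 0 / G.degree w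

/-- The configuration `σ_n` after `n` steps of parallel toppling, started from `σ`. -/
noncomputable def config (σ : V → ℝ) : ℕ → V → ℝ
  | 0 => σ
  | n + 1 => topple G (config σ n)

/-- The odometer `u_n`: `u_0 = 0` and `u_{n+1}(v) = u_n(v) + (σ_n(v) - 1)⁺ / deg(v)`. -/
noncomputable def odometer (σ : V → ℝ) : ℕ → V → ℝ
  | 0 => fun _ => 0
  | n + 1 => fun v => odometer σ n v + max (config G σ n v - 1) 0 / G.degree v

/-- The limiting odometer `u_∞(v) ∈ [0, ∞]`, the supremum of the nondecreasing sequence
`u_n(v)` of nonnegative reals. -/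
noncomputable def odometerLimit (σ : V → ℝ) (v : V) : ℝ≥0∞ :=
  ⨆ n, ENNReal.ofReal (odometer G σ n v)

/-- The configuration stabilizes if `u_∞(v) < ∞` for every vertex `v`. -/
def Stabilizes (σ : V → ℝ) : Prop := ∀ v, odometerLimit G σ v < ∞

variable {G}

lemma odometer_le_succ (σ : V → ℝ) (n : ℕ) (v : V) :
    odometer G σ n v ≤ odometer G σ (n + 1) v := by
  simp only [odometer]
  have : 0 ≤ max (config G σ n v - 1) 0 / G.degree v :=
    div_nonneg (le_max_right _ _) (Nat.cast_nonneg _)
  linarith

lemma odometer_mono (σ : V → ℝ) (v : V) : Monotone fun n => odometer G σ n v :=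
  monotone_nat_of_le_succ fun n => odometer_le_succ σ n v

lemma odometer_nonneg (σ : V → ℝ) (n : ℕ) (v : V) : 0 ≤ odometer G σ n v :=
  odometer_mono (G := G) σ v (Nat.zero_le n)

/-- the limiting odometer really is the limit of the odometers -/
lemma tendsto_odometer (σ : V → ℝ) (v : V) :
    Filter.Tendsto (fun n => ENNReal.ofReal (odometer G σ n v)) Filter.atTop
      (nhds (odometerLimit G σ v)) :=
  tendsto_atTop_iSup fun _ _ h => ENNReal.ofReal_le_ofReal (odometer_mono σ v h)

lemma config_eq (hpos : ∀ x, 0 < G.degree x) (σ : V → ℝ) (n : ℕ) (v : V) :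
    config G σ n v = σ v + ∑ w ∈ G.neighborFinset v, odometer G σ n w -
      G.degree v * odometer G σ n v := by
  induction n generalizing v with
  | zero => simp [config, odometer]
  | succ n ih =>
    have hd : (G.degree v : ℝ) ≠ 0 := by exact_mod_cast (hpos v).ne'
    have h1 : min (config G σ n v) 1 = config G σ n v - max (config G σ n v - 1) 0 := by
      rcases le_total (config G σ n v) 1 with h | h
      · rw [min_eq_left h, max_eq_right (by linarith)]; ring
      · rw [min_eq_right h, max_eq_left (by linarith)]; ring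
    simp only [config, topple, odometer]
    rw [Finset.sum_add_distrib, h1]
    nth_rewrite 1 [ih v]
    field_simp
    ring

lemma odometer_succ (hpos : ∀ x, 0 < G.degree x) (σ : V → ℝ) (n : ℕ) (v : V) :
    odometer G σ (n + 1) v = max (odometer G σ n v)
      ((σ v - 1) / G.degree v + avg G (odometer G σ n) v) := by
  have hd : (0 : ℝ) < G.degree v := by exact_mod_cast hpos v
  have h1 : odometer G σ n v + (config G σ n v - 1) / G.degree v =
      (σ v - 1) / G.degree v + avg G (odometer G σ n) v := by
    rw [config_eq hpos]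
    unfold avg
    field_simp
    ring
  rw [← h1]
  simp only [odometer]
  rcases le_total (config G σ n v - 1) 0 with h | h
  · rw [max_eq_right h]
    have : (config G σ n v - 1) / G.degree v ≤ 0 := div_nonpos_of_nonpos_of_nonneg h hd.le
    rw [max_eq_left (by linarith)]
    simp
  · rw [max_eq_left h]
    have : 0 ≤ (config G σ n v - 1) / G.degree v := div_nonneg h hd.le
    rw [max_eq_right (by linarith)]

lemma Ew_mx_le_succ (hpos : ∀ x, 0 < G.degree x) (c : V → ℝ) (n : ℕ) (v : V) :
    Ew G n v (mx c) ≤ Ew G (n + 1) v (mx c) := by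
  rw [← Ew_take hpos n (n + 1) (by omega) v]
  exact Ew_mono _ v _ _ fun l _ => mx_take_le c l n

/-- domination of the odometer by the expected maximal prefix sum along simple random walk -/
lemma odometer_le (hpos : ∀ x, 0 < G.degree x) (σ c : V → ℝ)
    (hc : ∀ y, (σ y - 1) / G.degree y ≤ c y) (n : ℕ) (v : V) :
    odometer G σ n v ≤ Ew G n v (mx c) := by
  induction n generalizing v with
  | zero => exact le_refl _
  | succ n ih =>
    rw [odometer_succ hpos]
    refine max_le ((ih v).trans (Ew_mx_le_succ hpos c n v)) ?_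
    calc (σ v - 1) / G.degree v + avg G (odometer G σ n) v
        ≤ c v + avg G (fun y => Ew G n y (mx c)) v :=
          add_le_add (hc v) (avg_mono fun y _ => ih y)
      _ = avg G (fun y => c v + Ew G n y (mx c)) v := by
          rw [avg_add, avg_const (hpos v)]
      _ ≤ Ew G (n + 1) v (mx c) := by
          rw [Ew]
          refine avg_mono fun y _ => ?_
          calc c v + Ew G n y (mx c) = Ew G n y (fun l => c v + mx c l) := by
                rw [Ew_add, Ew_const hpos]
            _ ≤ Ew G n y (fun l => mx c (v :: l)) :=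
                Ew_mono n y _ _ fun l _ => le_max_right _ _

lemma degree_pos_of_infinite (hinf : Infinite V) (hconn : G.Connected) (v : V) :
    0 < G.degree v := by
  obtain ⟨w, hw⟩ := exists_ne v
  obtain ⟨p⟩ := hconn.preconnected v w
  cases p with
  | nil => exact absurd rfl hw
  | cons h _ => exact (G.degree_pos_iff_exists_adj v).2 ⟨_, h⟩

end model

section measurability

variable {V : Type*} {G : SimpleGraph V} [G.LocallyFinite]
variable {Ω : Type*} [MeasurableSpace Ω]

lemma measurable_config {σ : V → Ω → ℝ} (hm : ∀ v, Measurable (σ v)) (n : ℕ) (v : V) :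
    Measurable fun ω => config G (fun y => σ y ω) n v := by
  induction n generalizing v with
  | zero => exact hm v
  | succ n ih =>
    simp only [config, topple]
    exact ((ih v).min measurable_const).add (Finset.measurable_fun_sum _ fun w _ =>
      (((ih w).sub_const 1).max measurable_const).div_const _)

lemma measurable_odometer {σ : V → Ω → ℝ} (hm : ∀ v, Measurable (σ v)) (n : ℕ) (v : V) :
    Measurable fun ω => odometer G (fun y => σ y ω) n v := by
  induction n with
  | zero => exact measurable_const
  | succ n ih =>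
    simp only [odometer]
    exact ih.add ((((measurable_config hm n v).sub_const 1).max measurable_const).div_const _)

end measurability

section mean

variable {Ω : Type*} [MeasurableSpace Ω]

/-- The extended mean `E[X⁺] - E[X⁻] ∈ [-∞, ∞]` of a real random variable
(meaningful when not both terms are infinite). -/
noncomputable def extMean (P : Measure Ω) (X : Ω → ℝ) : EReal :=
  ((∫⁻ ω, ENNReal.ofReal (X ω) ∂P : ℝ≥0∞) : EReal) - ((∫⁻ ω, ENNReal.ofReal (-X ω) ∂P : ℝ≥0∞) : EReal)

lemma exists_trunc {P : Measure Ω} [IsProbabilityMeasure P] {X : Ω → ℝ} (hX : Measurable X)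
    (hpos : ∫⁻ ω, ENNReal.ofReal (X ω) ∂P < ∞) (hmean : extMean P X < 1) :
    ∃ K : ℕ, ∫⁻ ω, ENNReal.ofReal (X ω - 1) ∂P < ∫⁻ ω, ENNReal.ofReal (min (1 - X ω) K) ∂P := by
  set A := ∫⁻ ω, ENNReal.ofReal (X ω) ∂P with hA
  set B := ∫⁻ ω, ENNReal.ofReal (-X ω) ∂P with hB
  set A' := ∫⁻ ω, ENNReal.ofReal (X ω - 1) ∂P with hA'
  set B' := ∫⁻ ω, ENNReal.ofReal (1 - X ω) ∂P with hB'
  have hid : A' + (B + 1) = A + B' := by
    have h1 : (1 : ℝ≥0∞) = ∫⁻ _ω : Ω, 1 ∂P := by simp
    rw [h1, hA', hB, hA, hB', ← lintegral_add_left (by fun_prop), ← lintegral_add_left (by fun_prop),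
      ← lintegral_add_left (by fun_prop)]
    refine lintegral_congr fun ω => ?_
    have e1 : (1 : ℝ≥0∞) = ENNReal.ofReal 1 := by simp
    have e2 : ∀ r : ℝ, ENNReal.ofReal r = ENNReal.ofReal (max r 0) := fun r => by
      rcases le_total r 0 with h | h
      · rw [max_eq_right h, ENNReal.ofReal_of_nonpos h]; simp
      · rw [max_eq_left h]
    rw [e1, e2 (X ω - 1), e2 (-X ω), e2 (X ω), e2 (1 - X ω)]
    rw [← ENNReal.ofReal_add (by positivity) (by norm_num),
      ← ENNReal.ofReal_add (by positivity) (by positivity),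
      ← ENNReal.ofReal_add (by positivity) (by positivity)]
    congr 1
    rcases le_total (X ω) 0 with h | h
    · rw [max_eq_right (by linarith : X ω - 1 ≤ 0), max_eq_left (by linarith : 0 ≤ -X ω),
        max_eq_right h, max_eq_left (by linarith : 0 ≤ 1 - X ω)]
      ring
    · rcases le_total (X ω) 1 with h' | h'
      · rw [max_eq_right (by linarith : X ω - 1 ≤ 0), max_eq_right (by linarith : -X ω ≤ 0),
          max_eq_left h, max_eq_left (by linarith : 0 ≤ 1 - X ω)]
        ring
      · rw [max_eq_left (by linarith : 0 ≤ X ω - 1), max_eq_right (by linarith : -X ω ≤ 0),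
          max_eq_left h, max_eq_right (by linarith : 1 - X ω ≤ 0)]
        ring
  have hA'A : A' ≤ A := lintegral_mono fun ω => ENNReal.ofReal_le_ofReal (by linarith)
  have hA'top : A' < ∞ := hA'A.trans_lt hpos
  have hlt : A' < B' := by
    by_contra hcon
    push Not at hcon
    have h1 : A' + (B + 1) ≤ A' + A := by
      rw [hid, add_comm A' A]
      gcongr
    have h2 : B + 1 ≤ A := (ENNReal.add_le_add_iff_left hA'top.ne).1 h1
    have hBtop : B ≠ ∞ := by
      intro h
      rw [h] at h2
      simp at h2
      exact hpos.ne h2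
    have h3 : (1 : EReal) ≤ (A : EReal) - (B : EReal) := by
      have hb : (B : EReal) ≠ ⊤ := by simpa using hBtop
      have hb' : (B : EReal) ≠ ⊥ := EReal.coe_ennreal_ne_bot B
      rw [EReal.le_sub_iff_add_le (Or.inl hb') (Or.inl hb)]
      have h4 : ((B + 1 : ℝ≥0∞) : EReal) ≤ (A : EReal) := EReal.coe_ennreal_le_coe_ennreal_iff.2 h2
      rw [EReal.coe_ennreal_add, EReal.coe_ennreal_one, add_comm] at h4
      exact h4
    exact absurd hmean (not_lt.2 h3)
  have hsup : B' = ⨆ K : ℕ, ∫⁻ ω, ENNReal.ofReal (min (1 - X ω) K) ∂P := by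
    rw [← lintegral_iSup (fun K => by fun_prop)]
    · refine lintegral_congr fun ω => le_antisymm ?_ ?_
      · obtain ⟨K, hK⟩ := exists_nat_ge (1 - X ω)
        refine le_iSup_of_le K ?_
        rw [min_eq_left hK]
      · exact iSup_le fun K => ENNReal.ofReal_le_ofReal (min_le_left _ _)
    · intro a b hab ω
      exact ENNReal.ofReal_le_ofReal (min_le_min_left _ (by exact_mod_cast hab))
  rw [hsup] at hlt
  exact lt_iSup_iff.1 hlt

end mean

end Pool.Agent.Lib_helper99.Sandpile
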