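import Pool.Agent.Lib_helper99.Sandpile.Scales

set_option autoImplicit false

open MeasureTheory ProbabilityTheory Finset

namespace Pool.Agent.Lib_helper99.Sandpile

section consts

variable {μ0 : Measure ℝ} [IsProbabilityMeasure μ0]

lemma tr_add_ng_le_abs (s r : ℝ) : tr s r + ng r ≤ |r| := by
  have h1 := tr_le_pos s r
  unfold ng
  rcases le_total r 0 with h | h
  · rw [max_eq_right h] at h1
    rw [max_eq_left (by linarith), abs_of_nonpos h]; linarith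
  · rw [max_eq_left h] at h1
    rw [max_eq_right (by linarith), abs_of_nonneg h]; linarith

lemma tr_mul_ng (s r : ℝ) : tr s r * ng r = 0 := by
  unfold tr ng
  rcases le_total r 0 with h | h
  · rw [max_eq_right h]; simp
  · rw [max_eq_right (by linarith : -r ≤ 0)]; simp

lemma tr_add_ng_pow6 (s r : ℝ) : (tr s r + ng r) ^ 6 = tr s r ^ 6 + ng r ^ 6 := by
  have h := tr_mul_ng s r
  have : (tr s r + ng r) ^ 6 = tr s r ^ 6 + ng r ^ 6 + (tr s r * ng r) * (6 * tr s r ^ 4 +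
    15 * tr s r ^ 3 * ng r + 20 * tr s r ^ 2 * ng r ^ 2 + 15 * tr s r * ng r ^ 3 +
    6 * ng r ^ 4) := by ring
  rw [this, h]; ring

variable {K : ℝ} (hK' : ∀ᵐ r ∂μ0, -K ≤ r) (hK0 : 0 ≤ K)
  (h3 : Integrable (fun r => max r 0 ^ 3) μ0)

include hK' hK0 h3

lemma integrable_abs_cube : Integrable (fun r : ℝ => |r| ^ 3) μ0 := by
  refine (h3.add (integrable_const (K ^ 3))).mono' (by fun_prop) ?_
  filter_upwards [hK'] with r hr
  rw [Real.norm_eq_abs, abs_of_nonneg (by positivity)]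
  simp only [Pi.add_apply]
  rcases le_total r 0 with h | h
  · rw [abs_of_nonpos h, max_eq_right h]
    have : (-r) ^ 3 ≤ K ^ 3 := pow_le_pow_left₀ (by linarith) (by linarith) 3
    simpa using this
  · rw [abs_of_nonneg h, max_eq_left h]
    have : 0 ≤ K ^ 3 := by positivity
    linarith

lemma integrable_abs_pow {j : ℕ} (hj : j ≤ 3) : Integrable (fun r : ℝ => |r| ^ j) μ0 := by
  refine ((integrable_const (1 : ℝ)).add (integrable_abs_cube hK' hK0 h3)).mono' (by fun_prop) ?_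
  refine ae_of_all _ fun r => ?_
  rw [Real.norm_eq_abs, abs_of_nonneg (by positivity)]
  simp only [Pi.add_apply]
  rcases le_total |r| 1 with h | h
  · have := pow_le_one₀ (n := j) (abs_nonneg r) h
    have : 0 ≤ |r| ^ 3 := by positivity
    linarith
  · have := pow_le_pow_right₀ h hj
    linarith

lemma integrable_pos : Integrable (fun r : ℝ => max r 0) μ0 := by
  have h1 := integrable_abs_pow hK' hK0 h3 (j := 1) (by norm_num)
  refine h1.mono' (by fun_prop) (ae_of_all _ fun r => ?_)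
  rw [Real.norm_eq_abs, abs_of_nonneg (le_max_right _ _), pow_one]
  exact max_le (le_abs_self r) (abs_nonneg r)

lemma integrable_ng : Integrable ng μ0 := by
  have h1 := integrable_abs_pow hK' hK0 h3 (j := 1) (by norm_num)
  refine h1.mono' measurable_ng.aestronglyMeasurable (ae_of_all _ fun r => ?_)
  rw [Real.norm_eq_abs, abs_of_nonneg (ng_nonneg r), pow_one]
  exact max_le (neg_le_abs r) (abs_nonneg r)

lemma integrable_tr (s : ℝ) : Integrable (tr s) μ0 := by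
  refine (integrable_pos hK' hK0 h3).mono' (measurable_tr s).aestronglyMeasurable
    (ae_of_all _ fun r => ?_)
  rw [Real.norm_eq_abs, abs_of_nonneg (tr_nonneg s r)]
  exact tr_le_pos s r

lemma integrable_bg (s : ℝ) : Integrable (bg s) μ0 := by
  refine (integrable_pos hK' hK0 h3).mono' (measurable_bg s).aestronglyMeasurable
    (ae_of_all _ fun r => ?_)
  rw [Real.norm_eq_abs, abs_of_nonneg (bg_nonneg s r)]
  exact bg_le_pos s r

lemma mean_le (s : ℝ) : (∫ r, tr s r ∂μ0) + ∫ r, ng r ∂μ0 ≤ ∫ r, |r| ∂μ0 := by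
  rw [← integral_add (integrable_tr hK' hK0 h3 s) (integrable_ng hK' hK0 h3)]
  have h1 := integrable_abs_pow hK' hK0 h3 (j := 1) (by norm_num)
  simp only [pow_one] at h1
  exact integral_mono ((integrable_tr hK' hK0 h3 s).add (integrable_ng hK' hK0 h3)) h1
    fun r => tr_add_ng_le_abs s r

lemma mean_nonneg (s : ℝ) : 0 ≤ (∫ r, tr s r ∂μ0) + ∫ r, ng r ∂μ0 :=
  add_nonneg (integral_nonneg fun r => tr_nonneg s r) (integral_nonneg fun r => ng_nonneg r)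

lemma cj_nonneg (s : ℝ) (j : ℕ) : 0 ≤ cj μ0 s j := by
  unfold cj
  have h1 : 0 ≤ ∫ r, (tr s r + ng r) ^ j ∂μ0 :=
    integral_nonneg fun r => pow_nonneg (add_nonneg (tr_nonneg s r) (ng_nonneg r)) j
  have h2 := mean_nonneg (μ0 := μ0) hK' hK0 h3 s
  positivity

lemma cj_le_low (s : ℝ) {j : ℕ} (hj : j ≤ 3) :
    cj μ0 s j ≤ 2 ^ j * (∫ r, |r| ^ j ∂μ0 + (∫ r, |r| ∂μ0) ^ j) := by
  unfold cj
  have h1 : ∫ r, (tr s r + ng r) ^ j ∂μ0 ≤ ∫ r, |r| ^ j ∂μ0 := by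
    refine integral_mono_of_nonneg (ae_of_all _ fun r =>
      pow_nonneg (add_nonneg (tr_nonneg s r) (ng_nonneg r)) j)
      (integrable_abs_pow hK' hK0 h3 hj) (ae_of_all _ fun r => ?_)
    exact pow_le_pow_left₀ (add_nonneg (tr_nonneg s r) (ng_nonneg r)) (tr_add_ng_le_abs s r) j
  have h2 := pow_le_pow_left₀ (mean_nonneg (μ0 := μ0) hK' hK0 h3 s)
    (mean_le (μ0 := μ0) hK' hK0 h3 s) j
  gcongr

lemma cj_le_four {s : ℝ} (hs : 1 ≤ s) :
    cj μ0 s 4 ≤ s * (16 * ((1 + K) * ∫ r, |r| ^ 3 ∂μ0 + (∫ r, |r| ∂μ0) ^ 4)) := by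
  unfold cj
  have h1 : ∫ r, (tr s r + ng r) ^ 4 ∂μ0 ≤ s * ((1 + K) * ∫ r, |r| ^ 3 ∂μ0) := by
    rw [← mul_assoc, ← integral_const_mul]
    refine integral_mono_of_nonneg (ae_of_all _ fun r =>
      pow_nonneg (add_nonneg (tr_nonneg s r) (ng_nonneg r)) 4)
      ((integrable_abs_cube hK' hK0 h3).const_mul _) ?_
    filter_upwards [hK'] with r hr
    have a0 := add_nonneg (tr_nonneg s r) (ng_nonneg r)
    have a1 : tr s r + ng r ≤ s * (1 + K) := by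
      have := tr_le (by linarith : (0 : ℝ) ≤ s) r
      have h2 : ng r ≤ K := max_le (by linarith) hK0
      nlinarith
    have a2 : (tr s r + ng r) ^ 3 ≤ |r| ^ 3 := pow_le_pow_left₀ a0 (tr_add_ng_le_abs s r) 3
    calc (tr s r + ng r) ^ 4 = (tr s r + ng r) * (tr s r + ng r) ^ 3 := by ring
      _ ≤ (s * (1 + K)) * |r| ^ 3 := by gcongr
  have h2 := pow_le_pow_left₀ (mean_nonneg (μ0 := μ0) hK' hK0 h3 s)
    (mean_le (μ0 := μ0) hK' hK0 h3 s) 4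
  have h4 : (∫ r, |r| ∂μ0) ^ 4 ≤ s * (∫ r, |r| ∂μ0) ^ 4 := by
    have : 0 ≤ (∫ r, |r| ∂μ0) ^ 4 := by positivity
    nlinarith
  calc 2 ^ 4 * (∫ r, (tr s r + ng r) ^ 4 ∂μ0 + ((∫ r, tr s r ∂μ0) + ∫ r, ng r ∂μ0) ^ 4)
      ≤ 2 ^ 4 * (s * ((1 + K) * ∫ r, |r| ^ 3 ∂μ0) + s * (∫ r, |r| ∂μ0) ^ 4) := by
        gcongr
        exact h2.trans h4
    _ = _ := by ring

lemma integrable_tr_pow {s : ℝ} (hs : 0 ≤ s) (j : ℕ) : Integrable (fun r => tr s r ^ j) μ0 := by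
  refine integrable_of_bdd_on ((measurable_tr s).pow_const j) (C := s ^ j)
    (ae_of_all _ fun r => ?_)
  rw [abs_of_nonneg (pow_nonneg (tr_nonneg s r) j)]
  exact pow_le_pow_left₀ (tr_nonneg s r) (tr_le hs r) j

lemma cj_le_six {s : ℝ} (hs : 1 ≤ s) :
    cj μ0 s 6 ≤ 64 * (∫ r, tr s r ^ 6 ∂μ0 + (K ^ 6 + (∫ r, |r| ∂μ0) ^ 6)) := by
  unfold cj
  have h1 : ∫ r, (tr s r + ng r) ^ 6 ∂μ0 ≤ ∫ r, tr s r ^ 6 ∂μ0 + K ^ 6 := by
    have e : ∫ r, tr s r ^ 6 ∂μ0 + K ^ 6 = ∫ r, (tr s r ^ 6 + K ^ 6) ∂μ0 := by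
      rw [integral_add (integrable_tr_pow hK' hK0 h3 (by linarith) 6) (integrable_const _)]
      simp
    rw [e]
    refine integral_mono_of_nonneg (ae_of_all _ fun r =>
      pow_nonneg (add_nonneg (tr_nonneg s r) (ng_nonneg r)) 6)
      ((integrable_tr_pow hK' hK0 h3 (by linarith) 6).add (integrable_const _)) ?_
    filter_upwards [hK'] with r hr
    rw [tr_add_ng_pow6]
    have h2 : ng r ≤ K := max_le (by linarith) hK0
    have := pow_le_pow_left₀ (ng_nonneg r) h2 6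
    linarith
  have h2 := pow_le_pow_left₀ (mean_nonneg (μ0 := μ0) hK' hK0 h3 s)
    (mean_le (μ0 := μ0) hK' hK0 h3 s) 6
  calc 2 ^ 6 * (∫ r, (tr s r + ng r) ^ 6 ∂μ0 + ((∫ r, tr s r ∂μ0) + ∫ r, ng r ∂μ0) ^ 6)
      ≤ 2 ^ 6 * ((∫ r, tr s r ^ 6 ∂μ0 + K ^ 6) + (∫ r, |r| ∂μ0) ^ 6) := by gcongr
    _ = _ := by ring

end consts

section path

variable {V : Type*} {G : SimpleGraph V} [G.LocallyFinite] [DecidableEq V]
variable {Ω : Type*} [MeasurableSpace Ω] {P : Measure Ω} [IsProbabilityMeasure P]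
variable {ζ : V → Ω → ℝ} {μ0 : Measure ℝ} [IsProbabilityMeasure μ0]

/-- expectation over the path of the sixth moment functional -/
lemma Ew_Q (hpos : ∀ x, 0 < G.degree x) (t' : ℕ) {g : ℝ}
    (hg : ∀ y, ∀ t ≤ t', ∀ x, gr G y t x ≤ g) (hg0 : 0 ≤ g) {c2 c3 c4 c6 : ℝ}
    (h2 : 0 ≤ c2) (h3 : 0 ≤ c3) (h4 : 0 ≤ c4) (h6 : 0 ≤ c6) (v : V) :
    Ew G t' v (fun l => 45 * (c2 * Lm 2 l) ^ 3 + 30 * ((c2 * Lm 2 l) * (c4 * Lm 4 l)) +
      20 * (c3 * Lm 3 l) ^ 2 + c6 * Lm 6 l) ≤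
    1080 * c2 ^ 3 * t' ^ 3 * g ^ 3 + (3600 * c2 * c4 + 2400 * c3 ^ 2) * t' ^ 2 * g ^ 4 +
      720 * c6 * t' * g ^ 5 := by
  have hL := fun j => Ew_Lm (G := G) hpos t' hg hg0 j t' le_rfl v
  have e4 := hL 3
  have e5 := hL 4
  have e6 := hL 5
  simp only [Nat.factorial] at e4 e5 e6
  norm_num at e4 e5 e6
  have hmono : Ew G t' v (fun l => 45 * (c2 * Lm 2 l) ^ 3 + 30 * ((c2 * Lm 2 l) * (c4 * Lm 4 l)) +
      20 * (c3 * Lm 3 l) ^ 2 + c6 * Lm 6 l) ≤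
      Ew G t' v (fun l => ((45 * c2 ^ 3 * t' ^ 2) * Lm 4 l +
        ((30 * c2 * c4 + 20 * c3 ^ 2) * t') * Lm 5 l) + c6 * Lm 6 l) := by
    refine Ew_mono t' v _ _ fun l hl => ?_
    have g1 := L2_cube l
    have g2 := L2_L4 l
    have g3 := L3_sq l
    rw [hl] at g1 g2 g3
    have i1 : 45 * (c2 * Lm 2 l) ^ 3 ≤ (45 * c2 ^ 3 * t' ^ 2) * Lm 4 l := by
      calc 45 * (c2 * Lm 2 l) ^ 3 = 45 * c2 ^ 3 * Lm 2 l ^ 3 := by ring
        _ ≤ 45 * c2 ^ 3 * ((t' : ℝ) ^ 2 * Lm 4 l) := by gcongr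
        _ = _ := by ring
    have i2 : 30 * ((c2 * Lm 2 l) * (c4 * Lm 4 l)) ≤ 30 * c2 * c4 * t' * Lm 5 l := by
      calc 30 * ((c2 * Lm 2 l) * (c4 * Lm 4 l)) = 30 * c2 * c4 * (Lm 2 l * Lm 4 l) := by ring
        _ ≤ 30 * c2 * c4 * (t' * Lm 5 l) := by gcongr
        _ = _ := by ring
    have i3 : 20 * (c3 * Lm 3 l) ^ 2 ≤ 20 * c3 ^ 2 * t' * Lm 5 l := by
      calc 20 * (c3 * Lm 3 l) ^ 2 = 20 * c3 ^ 2 * Lm 3 l ^ 2 := by ring
        _ ≤ 20 * c3 ^ 2 * (t' * Lm 5 l) := by gcongr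
        _ = _ := by ring
    linarith
  refine hmono.trans ?_
  rw [Ew_add, Ew_add, Ew_const_mul, Ew_const_mul, Ew_const_mul]
  have j4 : (45 * c2 ^ 3 * t' ^ 2) * Ew G t' v (Lm 4) ≤
      (45 * c2 ^ 3 * t' ^ 2) * (t' * (24 * g ^ 3)) := by gcongr
  have j5 : ((30 * c2 * c4 + 20 * c3 ^ 2) * t') * Ew G t' v (Lm 5) ≤
      ((30 * c2 * c4 + 20 * c3 ^ 2) * t') * (t' * (120 * g ^ 4)) := by gcongr
  have j6 : c6 * Ew G t' v (Lm 6) ≤ c6 * (t' * (720 * g ^ 5)) := by gcongr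
  calc _ ≤ (45 * c2 ^ 3 * t' ^ 2) * (t' * (24 * g ^ 3)) +
        ((30 * c2 * c4 + 20 * c3 ^ 2) * t') * (t' * (120 * g ^ 4)) + c6 * (t' * (720 * g ^ 5)) := by
        linarith
    _ = _ := by ring

end path

end Pool.Agent.Lib_helper99.Sandpile
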