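import Pool.Agent.Lib_helper99.Sandpile.Annealed

set_option autoImplicit false

open MeasureTheory ProbabilityTheory Finset

namespace Pool.Agent.Lib_helper99.Sandpile

section mx

variable {V : Type*}

/-- maximal prefix sum of `c` along a list -/
noncomputable def mx (c : V → ℝ) : List V → ℝ
  | [] => 0
  | x :: l => max 0 (c x + mx c l)

lemma mx_nonneg (c : V → ℝ) (l : List V) : 0 ≤ mx c l := by
  cases l with
  | nil => exact le_refl _
  | cons x l => exact le_max_left _ _

lemma mx_take_le (c : V → ℝ) (l : List V) (n : ℕ) : mx c (l.take n) ≤ mx c l := by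
  induction l generalizing n with
  | nil => simp
  | cons x l ih =>
    cases n with
    | zero => exact mx_nonneg c (x :: l)
    | succ n =>
      rw [List.take_succ_cons, mx, mx]
      exact max_le_max le_rfl (by linarith [ih n])

lemma mx_le (c : V → ℝ) (l : List V) (M : ℝ) (hM : 0 ≤ M)
    (h : ∀ j, 1 ≤ j → j ≤ l.length → ((l.take j).map c).sum ≤ M) : mx c l ≤ M := by
  induction l generalizing M with
  | nil => exact hM
  | cons x l ih =>
    rw [mx]
    refine max_le hM ?_
    have h1 : c x ≤ M := by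
      have := h 1 le_rfl (by simp)
      simpa using this
    have h2 : mx c l ≤ M - c x := by
      refine ih (M - c x) (by linarith) fun j hj hjl => ?_
      have := h (j + 1) (by omega) (by simpa using hjl)
      rw [List.take_succ_cons, List.map_cons, List.sum_cons] at this
      linarith
    linarith

end mx

section

variable {V : Type*} {G : SimpleGraph V} [G.LocallyFinite] [DecidableEq V]
variable {Ω : Type*} [MeasurableSpace Ω] {P : Measure Ω}
variable {ζ : V → Ω → ℝ} {μ0 : Measure ℝ}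

omit [MeasurableSpace Ω] in
lemma prefix_le (l : List V) (t j t' : ℕ) (h1 : t ≤ j) (h2 : j ≤ t') (ω : Ω) :
    ((l.take j).map (fun y => ζ y ω / G.degree y)).sum ≤ Bf G ζ t (l.take t') ω := by
  have hc1 : ∀ y, (l.take j).count y ≤ (l.take t').count y := by
    intro y
    have : (l.take t').take j = l.take j := by
      rw [List.take_take, min_eq_left h2]
    rw [← this]
    exact count_take_le _ _ _
  have hc2 : ∀ y, ((l.take t').take t).count y ≤ (l.take j).count y := by
    intro y
    have : (l.take t').take t = (l.take j).take t := by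
      rw [List.take_take, List.take_take, min_eq_left h1, min_eq_left (h1.trans h2)]
    rw [this]
    exact count_take_le _ _ _
  rw [Finset.sum_list_map_count]
  have hsub : (l.take j).toFinset ⊆ (l.take t').toFinset := by
    intro y hy
    rw [List.mem_toFinset, ← List.count_pos_iff] at hy ⊢
    exact hy.trans_le (hc1 y)
  rw [Finset.sum_subset hsub]
  · unfold Bf
    refine Finset.sum_le_sum fun y _ => ?_
    have e : (l.take j).count y • (ζ y ω / G.degree y) =
        max (ζ y ω) 0 * (((l.take j).count y : ℝ) / G.degree y) -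
        ng (ζ y ω) * (((l.take j).count y : ℝ) / G.degree y) := by
      have : ζ y ω = max (ζ y ω) 0 - ng (ζ y ω) := by
        unfold ng
        rcases le_total (ζ y ω) 0 with h | h
        · rw [max_eq_right h, max_eq_left (by linarith)]; ring
        · rw [max_eq_left h, max_eq_right (by linarith)]; ring
      rw [nsmul_eq_mul]
      nth_rewrite 1 [this]
      ring
    rw [e]
    have g1 : max (ζ y ω) 0 * (((l.take j).count y : ℝ) / G.degree y) ≤
        max (ζ y ω) 0 * (((l.take t').count y : ℝ) / G.degree y) := by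
      have := hc1 y
      have h0 : 0 ≤ max (ζ y ω) 0 := le_max_right _ _
      gcongr
    have g2 : ng (ζ y ω) * ((((l.take t').take t).count y : ℝ) / G.degree y) ≤
        ng (ζ y ω) * (((l.take j).count y : ℝ) / G.degree y) := by
      have := hc2 y
      have h0 := ng_nonneg (ζ y ω)
      gcongr
    linarith
  · intro y _ hy
    rw [List.mem_toFinset] at hy
    rw [List.count_eq_zero.2 hy, zero_smul]

lemma exists_scale {q : ℝ} (n : ℕ) (j : ℕ) (h1 : 1 ≤ j) (h2 : j ≤ ts q (n + 1)) :
    ∃ k < n + 1, ts q k ≤ j ∧ j ≤ ts q (k + 1) := by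
  induction n with
  | zero => exact ⟨0, by omega, by rw [ts_zero]; exact h1, h2⟩
  | succ n ih =>
    by_cases h : j ≤ ts q (n + 1)
    · obtain ⟨k, hk, h3⟩ := ih h
      exact ⟨k, by omega, h3⟩
    · exact ⟨n + 1, by omega, by omega, h2⟩

omit [MeasurableSpace Ω] in
lemma mx_le_sum {q : ℝ} (n : ℕ) (l : List V) (hl : l.length = ts q (n + 1)) (ω : Ω) :
    mx (fun y => ζ y ω / G.degree y) l ≤
      ∑ k ∈ range (n + 1), max (Bf G ζ (ts q k) (l.take (ts q (k + 1))) ω) 0 := by
  refine mx_le _ _ _ (Finset.sum_nonneg fun k _ => le_max_right _ _) fun j hj hjl => ?_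
  obtain ⟨k, hk, h1, h2⟩ := exists_scale n j hj (hl ▸ hjl)
  refine (prefix_le (G := G) (ζ := ζ) l (ts q k) j (ts q (k + 1)) h1 h2 ω).trans ?_
  refine (le_max_left _ 0).trans ?_
  exact Finset.single_le_sum
    (f := fun k => max (Bf G ζ (ts q k) (l.take (ts q (k + 1))) ω) 0)
    (fun k _ => le_max_right _ _) (Finset.mem_range.2 hk)

omit [DecidableEq V] in
lemma avg_integrable {f : V → Ω → ℝ} (hf : ∀ y, Integrable (f y) P) (x : V) :
    Integrable (fun ω => avg G (fun y => f y ω) x) P := by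
  unfold avg
  exact (integrable_finsetSum _ fun y _ => hf y).div_const _

omit [DecidableEq V] in
lemma avg_integral {f : V → Ω → ℝ} (hf : ∀ y, Integrable (f y) P) (x : V) :
    avg G (fun y => ∫ ω, f y ω ∂P) x = ∫ ω, avg G (fun y => f y ω) x ∂P := by
  unfold avg
  rw [integral_div, integral_finsetSum _ fun y _ => hf y]

omit [DecidableEq V] in
lemma Ew_integrable (n : ℕ) (x : V) (F : List V → Ω → ℝ) (hF : ∀ l, Integrable (F l) P) :
    Integrable (fun ω => Ew G n x (fun l => F l ω)) P := by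
  induction n generalizing x F with
  | zero => exact hF []
  | succ n ih =>
    simp only [Ew]
    exact avg_integrable (fun y => ih y (fun l => F (x :: l)) fun l => hF _) x

omit [DecidableEq V] in
lemma Ew_integral (n : ℕ) (x : V) (F : List V → Ω → ℝ) (hF : ∀ l, Integrable (F l) P) :
    Ew G n x (fun l => ∫ ω, F l ω ∂P) = ∫ ω, Ew G n x (fun l => F l ω) ∂P := by
  induction n generalizing x F with
  | zero => rfl
  | succ n ih =>
    simp only [Ew]
    rw [← avg_integral (fun y => Ew_integrable n y (fun l => F (x :: l)) fun l => hF _) x]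
    exact avg_congr fun y _ => ih y (fun l => F (x :: l)) fun l => hF _

omit [DecidableEq V] in
lemma mx_integrable (hζ : ∀ y, Integrable (ζ y) P) (l : List V) :
    Integrable (fun ω => mx (fun y => ζ y ω / G.degree y) l) P := by
  induction l with
  | nil => exact integrable_zero _ _ _
  | cons x l ih =>
    have h1 : Integrable (fun ω => ζ x ω / G.degree x + mx (fun y => ζ y ω / G.degree y) l) P :=
      ((hζ x).div_const _).add ih
    have h2 := h1.pos_part
    refine h2.congr (ae_of_all _ fun ω => ?_)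
    simp only [mx]
    rw [max_comm]

lemma Bf_integrable (hp : ∀ y, Integrable (fun ω => max (ζ y ω) 0) P)
    (hn : ∀ y, Integrable (fun ω => ng (ζ y ω)) P) (t : ℕ) (l : List V) :
    Integrable (fun ω => max (Bf G ζ t l ω) 0) P := by
  have h1 : Integrable (fun ω => Bf G ζ t l ω) P := by
    unfold Bf
    exact integrable_finsetSum _ fun y _ => ((hp y).mul_const _).sub ((hn y).mul_const _)
  exact h1.pos_part

variable [IsProbabilityMeasure P] [IsProbabilityMeasure μ0]

/-- Uniform bound of the annealed maximal prefix sum. -/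
theorem annealed_bound (hinf : Infinite V) (hconn : G.Connected) (hpos : ∀ x, 0 < G.degree x)
    {D : ℕ} (hD : ∀ x, G.degree x ≤ D)
    (hm : ∀ y, Measurable (ζ y))
    (hi : iIndepFun ζ P) (hmap : ∀ y, P.map (ζ y) = μ0) {K : ℝ} (hK : ∀ y ω, -K ≤ ζ y ω)
    (hK0 : 0 ≤ K) (h3 : Integrable (fun r => max r 0 ^ 3) μ0)
    (hδ : ∫ r, max r 0 ∂μ0 < ∫ r, ng r ∂μ0) :
    ∃ C : ℝ, ∀ (n : ℕ) (v : V),
      Integrable (fun ω => Ew G n v (mx (fun y => ζ y ω / G.degree y))) P ∧
      ∫ ω, Ew G n v (mx (fun y => ζ y ω / G.degree y)) ∂P ≤ C := by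
  obtain ⟨o⟩ : Nonempty V := hconn.nonempty
  have hK' : ∀ᵐ r ∂μ0, -K ≤ r := by
    rw [← hmap o, ae_map_iff (hm o).aemeasurable measurableSet_Ici]
    exact ae_of_all _ (hK o)
  have hpi : ∀ y, Integrable (fun ω => max (ζ y ω) 0) P := fun y =>
    integrable_comp (φ := fun r => max r 0) hm hmap (integrable_pos hK' hK0 h3) y
  have hni : ∀ y, Integrable (fun ω => ng (ζ y ω)) P := fun y =>
    integrable_comp hm hmap (integrable_ng hK' hK0 h3) y
  have hζi : ∀ y, Integrable (ζ y) P := by
    intro y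
    refine ((hpi y).sub (hni y)).congr (ae_of_all _ fun ω => ?_)
    simp only [Pi.sub_apply, ng]
    rcases le_total (ζ y ω) 0 with h | h
    · rw [max_eq_right h, max_eq_left (by linarith)]; ring
    · rw [max_eq_left h, max_eq_right (by linarith)]; ring
  -- choice of q
  set m := ∫ r, max r 0 ∂μ0 with hmdef
  have hm0 : 0 ≤ m := integral_nonneg fun r => le_max_right _ _
  have hD1 : (1 : ℝ) ≤ D := by
    have : 1 ≤ D := (hpos o).trans_le (hD o)
    exact_mod_cast this
  set η := ((∫ r, ng r ∂μ0) - m) / (4 * D * (m + 1)) with hη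
  have hη0 : 0 < η := by
    apply div_pos (by linarith) (by positivity)
  obtain ⟨q, hq, hq2⟩ : ∃ q : ℝ, 1 < q ∧ q ^ 2 - 1 ≤ η := by
    refine ⟨√(1 + η), ?_, ?_⟩
    · rw [show (1 : ℝ) = √1 by simp]
      exact Real.sqrt_lt_sqrt (by norm_num) (by simp; linarith)
    · rw [Real.sq_sqrt (by linarith)]; linarith
  obtain ⟨c0, c1, a, h0, h1, ha, hblock⟩ := block_annealed (P := P) hinf hconn hpos hD hm hi hmap
    hK hK' hK0 h3 hδ hq hq2
  set M3 := ∫ r, max r 0 ^ 3 ∂μ0 with hM3
  -- total bound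
  refine ⟨c0 * (q / (q - 1)) + c1 * (q ^ 3 / (q ^ 3 - 1) * M3) +
    a * (q ^ 2 / (q ^ 2 - 1) * M3), fun n v => ?_⟩
  have hmi := mx_integrable (G := G) hζi
  refine ⟨Ew_integrable n v (fun l ω => mx (fun y => ζ y ω / G.degree y) l) hmi, ?_⟩
  rw [← Ew_integral n v (fun l ω => mx (fun y => ζ y ω / G.degree y) l) hmi]
  obtain ⟨N, hN1, hN⟩ := ts_tendsto hq n
  obtain ⟨N, rfl⟩ : ∃ N', N = N' + 1 := ⟨N - 1, by omega⟩
  have hBi := fun t l => Bf_integrable (G := G) hpi hni t l
  have step1 : Ew G n v (fun l => ∫ ω, mx (fun y => ζ y ω / G.degree y) l ∂P) ≤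
      Ew G (ts q (N + 1)) v (fun l => ∫ ω, mx (fun y => ζ y ω / G.degree y) l ∂P) := by
    rw [← Ew_take hpos n (ts q (N + 1)) hN v]
    refine Ew_mono _ v _ _ fun l _ => ?_
    exact integral_mono (hmi _) (hmi _) fun ω => mx_take_le _ _ _
  have step2 : Ew G (ts q (N + 1)) v (fun l => ∫ ω, mx (fun y => ζ y ω / G.degree y) l ∂P) ≤
      Ew G (ts q (N + 1)) v (fun l => ∑ k ∈ range (N + 1),
        ∫ ω, max (Bf G ζ (ts q k) (l.take (ts q (k + 1))) ω) 0 ∂P) := by
    refine Ew_mono _ v _ _ fun l hl => ?_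
    rw [← integral_finsetSum _ fun k _ => hBi _ _]
    exact integral_mono (hmi _) (integrable_finsetSum _ fun k _ => hBi _ _)
      fun ω => mx_le_sum N l hl ω
  have step3 : Ew G (ts q (N + 1)) v (fun l => ∑ k ∈ range (N + 1),
        ∫ ω, max (Bf G ζ (ts q k) (l.take (ts q (k + 1))) ω) 0 ∂P) =
      ∑ k ∈ range (N + 1), Ew G (ts q (k + 1)) v
        (fun l => ∫ ω, max (Bf G ζ (ts q k) l ω) 0 ∂P) := by
    rw [Ew_sum]
    refine Finset.sum_congr rfl fun k hk => ?_
    rw [Finset.mem_range] at hk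
    exact Ew_take hpos _ _ (ts_mono hq (by omega)) v
      (fun l => ∫ ω, max (Bf G ζ (ts q k) l ω) 0 ∂P)
  have step4 : ∑ k ∈ range (N + 1), Ew G (ts q (k + 1)) v
        (fun l => ∫ ω, max (Bf G ζ (ts q k) l ω) 0 ∂P) ≤
      c0 * (q / (q - 1)) + c1 * (q ^ 3 / (q ^ 3 - 1) * M3) + a * (q ^ 2 / (q ^ 2 - 1) * M3) := by
    refine (Finset.sum_le_sum fun k _ => hblock k v).trans ?_
    rw [Finset.sum_add_distrib, Finset.sum_add_distrib, ← Finset.mul_sum, ← Finset.mul_sum,
      ← Finset.mul_sum]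
    have s1 := sum_inv_pow hq (N + 1)
    have s2 : ∑ k ∈ range (N + 1), (q ^ (3 * k))⁻¹ * ∫ r, tr (q ^ k) r ^ 6 ∂μ0 ≤
        q ^ 3 / (q ^ 3 - 1) * M3 := by
      have i : ∀ k ∈ range (N + 1), Integrable (fun r => (q ^ (3 * k))⁻¹ * tr (q ^ k) r ^ 6) μ0 :=
        fun k _ => (integrable_tr_pow hK' hK0 h3 (by positivity) 6).const_mul _
      have e : ∑ k ∈ range (N + 1), (q ^ (3 * k))⁻¹ * ∫ r, tr (q ^ k) r ^ 6 ∂μ0 =
          ∫ r, ∑ k ∈ range (N + 1), (q ^ (3 * k))⁻¹ * tr (q ^ k) r ^ 6 ∂μ0 := by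
        rw [integral_finsetSum _ i]
        exact Finset.sum_congr rfl fun k _ => (integral_const_mul _ _).symm
      rw [e, hM3, ← integral_const_mul]
      exact integral_mono (integrable_finsetSum _ i) (h3.const_mul _) fun r => sum_tr hq _ r
    have s3 : ∑ k ∈ range (N + 1), q ^ (2 * k) * ∫ r, bg (q ^ k) r ∂μ0 ≤
        q ^ 2 / (q ^ 2 - 1) * M3 := by
      have i : ∀ k ∈ range (N + 1), Integrable (fun r => q ^ (2 * k) * bg (q ^ k) r) μ0 :=
        fun k _ => (integrable_bg hK' hK0 h3 _).const_mul _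
      have e : ∑ k ∈ range (N + 1), q ^ (2 * k) * ∫ r, bg (q ^ k) r ∂μ0 =
          ∫ r, ∑ k ∈ range (N + 1), q ^ (2 * k) * bg (q ^ k) r ∂μ0 := by
        rw [integral_finsetSum _ i]
        exact Finset.sum_congr rfl fun k _ => (integral_const_mul _ _).symm
      rw [e, hM3, ← integral_const_mul]
      exact integral_mono (integrable_finsetSum _ i) (h3.const_mul _) fun r => sum_bg hq _ r
    gcongr
  exact step1.trans (step2.trans (step3.le.trans step4))

end

end Pool.Agent.Lib_helper99.Sandpile
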