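import Pool.Agent.Lib_helper99.Sandpile.Block

set_option autoImplicit false

open MeasureTheory ProbabilityTheory Finset

namespace Pool.Agent.Lib_helper99.Sandpile

section sums

variable {q : ℝ}

/-- `∑_{k<n} q^{-k} ≤ q/(q-1)` -/
lemma sum_inv_pow (hq : 1 < q) (n : ℕ) : ∑ k ∈ range n, (q ^ k)⁻¹ ≤ q / (q - 1) := by
  have h0 : 0 < q := by linarith
  have h1 : q⁻¹ < 1 := inv_lt_one_of_one_lt₀ hq
  have h2 : ∀ k, (q ^ k)⁻¹ = (q⁻¹) ^ k := fun k => by rw [inv_pow]
  simp only [h2]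
  have h3 := geom_sum_eq (ne_of_lt h1) n
  rw [h3]
  have h4 : (q⁻¹ ^ n - 1) / (q⁻¹ - 1) = (1 - q⁻¹ ^ n) / (1 - q⁻¹) := by
    rw [← neg_sub, ← neg_sub (1 : ℝ) q⁻¹, neg_div_neg_eq]
  rw [h4]
  have h5 : q / (q - 1) = 1 / (1 - q⁻¹) := by
    have : q - 1 ≠ 0 := by linarith
    have h0' : q ≠ 0 := h0.ne'
    have : 1 - q⁻¹ ≠ 0 := by
      intro h
      linarith
    field_simp
  rw [h5]
  refine div_le_div_of_nonneg_right ?_ (by linarith)
  have : 0 ≤ q⁻¹ ^ n := by positivity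
  linarith

/-- geometric sum of the large parts -/
lemma sum_bg (hq : 1 < q) (n : ℕ) (r : ℝ) :
    ∑ k ∈ range n, q ^ (2 * k) * bg (q ^ k) r ≤ q ^ 2 / (q ^ 2 - 1) * max r 0 ^ 3 := by
  have h0 : 0 < q := by linarith
  have hq2 : 1 < q ^ 2 := by nlinarith
  have hc : 0 ≤ q ^ 2 / (q ^ 2 - 1) := div_nonneg (by positivity) (by linarith)
  rcases le_or_gt r 0 with hr | hr
  · rw [max_eq_right hr]
    have : ∑ k ∈ range n, q ^ (2 * k) * bg (q ^ k) r = 0 := by
      refine Finset.sum_eq_zero fun k _ => ?_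
      have : bg (q ^ k) r = 0 := by
        unfold bg; rw [if_pos (hr.trans (by positivity))]
      rw [this, mul_zero]
    rw [this]; simp
  · rw [max_eq_left hr.le]
    have key : ∀ n, ∑ k ∈ range n, (if r ≤ q ^ k then 0 else q ^ (2 * k)) ≤
        q ^ 2 / (q ^ 2 - 1) * r ^ 2 := by
      intro n
      induction n with
      | zero => simp; positivity
      | succ n ih =>
        rw [Finset.sum_range_succ]
        by_cases h : r ≤ q ^ n
        · rw [if_pos h, add_zero]; exact ih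
        · rw [if_neg h]
          push Not at h
          have h1 : ∑ k ∈ range n, (if r ≤ q ^ k then 0 else q ^ (2 * k)) ≤
              ∑ k ∈ range n, q ^ (2 * k) := by
            refine Finset.sum_le_sum fun k _ => ?_
            split_ifs
            · positivity
            · exact le_refl _
          have h2 : ∑ k ∈ range n, q ^ (2 * k) + q ^ (2 * n) = ((q ^ 2) ^ (n + 1) - 1) / (q ^ 2 - 1) := by
            rw [← geom_sum_eq (ne_of_gt hq2), Finset.sum_range_succ]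
            simp only [pow_mul]
          have h3 : (q ^ 2) ^ (n + 1) - 1 ≤ q ^ 2 * r ^ 2 := by
            have : (q ^ n) ^ 2 ≤ r ^ 2 := pow_le_pow_left₀ (by positivity) h.le 2
            have h4 : (q ^ 2) ^ (n + 1) = q ^ 2 * (q ^ n) ^ 2 := by ring
            rw [h4]
            nlinarith
          calc _ ≤ ∑ k ∈ range n, q ^ (2 * k) + q ^ (2 * n) := by linarith
            _ = ((q ^ 2) ^ (n + 1) - 1) / (q ^ 2 - 1) := h2
            _ ≤ (q ^ 2 * r ^ 2) / (q ^ 2 - 1) :=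
              div_le_div_of_nonneg_right h3 (by linarith)
            _ = _ := by ring
    have h1 : ∑ k ∈ range n, q ^ (2 * k) * bg (q ^ k) r =
        r * ∑ k ∈ range n, (if r ≤ q ^ k then 0 else q ^ (2 * k)) := by
      rw [Finset.mul_sum]
      refine Finset.sum_congr rfl fun k _ => ?_
      unfold bg
      split_ifs
      · ring
      · rw [max_eq_left hr.le]; ring
    rw [h1]
    calc r * ∑ k ∈ range n, (if r ≤ q ^ k then 0 else q ^ (2 * k)) ≤
          r * (q ^ 2 / (q ^ 2 - 1) * r ^ 2) := mul_le_mul_of_nonneg_left (key n) hr.le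
      _ = _ := by ring

/-- geometric sum of the sixth powers of the truncated parts -/
lemma sum_tr (hq : 1 < q) (n : ℕ) (r : ℝ) :
    ∑ k ∈ range n, (q ^ (3 * k))⁻¹ * tr (q ^ k) r ^ 6 ≤ q ^ 3 / (q ^ 3 - 1) * max r 0 ^ 3 := by
  have h0 : 0 < q := by linarith
  have hq3 : 1 < q ^ 3 := by nlinarith [mul_pos h0 h0]
  rcases le_or_gt r 0 with hr | hr
  · rw [max_eq_right hr]
    have : ∑ k ∈ range n, (q ^ (3 * k))⁻¹ * tr (q ^ k) r ^ 6 = 0 := by
      refine Finset.sum_eq_zero fun k _ => ?_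
      have : tr (q ^ k) r = 0 := by
        unfold tr; rw [if_pos (hr.trans (by positivity)), max_eq_right hr]
      rw [this]; simp
    rw [this]; simp
  · rw [max_eq_left hr.le]
    set F : ℕ → ℝ := fun k => min 1 (r ^ 3 * (q ^ (3 * k))⁻¹) with hF
    have hstep : ∀ k, (1 - (q ^ 3)⁻¹) * (if r ≤ q ^ k then r ^ 3 * (q ^ (3 * k))⁻¹ else 0) ≤
        F k - F (k + 1) := by
      intro k
      have hqk : 0 < q ^ (3 * k) := by positivity
      have hnext : r ^ 3 * (q ^ (3 * (k + 1)))⁻¹ = (q ^ 3)⁻¹ * (r ^ 3 * (q ^ (3 * k))⁻¹) := by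
        rw [show 3 * (k + 1) = 3 * k + 3 by ring, pow_add, mul_inv]; ring
      have hinv : (q ^ 3)⁻¹ ≤ 1 := inv_le_one_of_one_le₀ hq3.le
      have hinv0 : 0 < (q ^ 3)⁻¹ := by positivity
      have hval0 : 0 ≤ r ^ 3 * (q ^ (3 * k))⁻¹ := by positivity
      by_cases h : r ≤ q ^ k
      · rw [if_pos h]
        have h1 : r ^ 3 * (q ^ (3 * k))⁻¹ ≤ 1 := by
          rw [mul_inv_le_iff₀ hqk, one_mul]
          calc r ^ 3 ≤ (q ^ k) ^ 3 := pow_le_pow_left₀ hr.le h 3
            _ = q ^ (3 * k) := by rw [← pow_mul, mul_comm]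
        simp only [hF]
        rw [hnext, min_eq_right h1, min_eq_right (by nlinarith)]
        linarith
      · rw [if_neg h, mul_zero]
        simp only [hF]
        rw [hnext]
        have : min 1 ((q ^ 3)⁻¹ * (r ^ 3 * (q ^ (3 * k))⁻¹)) ≤ min 1 (r ^ 3 * (q ^ (3 * k))⁻¹) :=
          min_le_min_left _ (by nlinarith)
        linarith
    have htel : ∑ k ∈ range n, (F k - F (k + 1)) ≤ 1 := by
      rw [Finset.sum_range_sub']
      have h1 : F 0 ≤ 1 := min_le_left _ _
      have h2 : 0 ≤ F n := le_min zero_le_one (by positivity)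
      linarith
    have hsum : (1 - (q ^ 3)⁻¹) * ∑ k ∈ range n,
        (if r ≤ q ^ k then r ^ 3 * (q ^ (3 * k))⁻¹ else 0) ≤ 1 := by
      rw [Finset.mul_sum]
      exact (Finset.sum_le_sum fun k _ => hstep k).trans htel
    have hpos : 0 < 1 - (q ^ 3)⁻¹ := by
      have : (q ^ 3)⁻¹ < 1 := inv_lt_one_of_one_lt₀ hq3
      linarith
    have hsum2 : ∑ k ∈ range n, (if r ≤ q ^ k then r ^ 3 * (q ^ (3 * k))⁻¹ else 0) ≤
        q ^ 3 / (q ^ 3 - 1) := by
      have e : q ^ 3 / (q ^ 3 - 1) = 1 / (1 - (q ^ 3)⁻¹) := by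
        have h1 : q ^ 3 - 1 ≠ 0 := by linarith
        have h2 : q ^ 3 ≠ 0 := by positivity
        have h3 := hpos.ne'
        rw [div_eq_div_iff h1 h3]
        field_simp
      rw [e, le_div_iff₀ hpos]
      linarith
    have h1 : ∑ k ∈ range n, (q ^ (3 * k))⁻¹ * tr (q ^ k) r ^ 6 =
        r ^ 3 * ∑ k ∈ range n, (if r ≤ q ^ k then r ^ 3 * (q ^ (3 * k))⁻¹ else 0) := by
      rw [Finset.mul_sum]
      refine Finset.sum_congr rfl fun k _ => ?_
      unfold tr
      split_ifs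
      · rw [max_eq_left hr.le]; ring
      · simp
    rw [h1]
    calc _ ≤ r ^ 3 * (q ^ 3 / (q ^ 3 - 1)) := mul_le_mul_of_nonneg_left hsum2 (by positivity)
      _ = _ := by ring

end sums

end Pool.Agent.Lib_helper99.Sandpile
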