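import Pool.Agent.Lib_helper99.Sandpile.Green

set_option autoImplicit false

open Finset

namespace Pool.Agent.Lib_helper99.Sandpile

section Ew

variable {V : Type*} (G : SimpleGraph V) [G.LocallyFinite]

/-- `Ew n x F`: expectation of `F [X_0, …, X_{n-1}]` for simple random walk `X` started at `x` -/
noncomputable def Ew : ℕ → V → (List V → ℝ) → ℝ
  | 0, _, F => F []
  | (n + 1), x, F => avg G (fun y => Ew n y (fun l => F (x :: l))) x

variable {G}

lemma Ew_mono (n : ℕ) (x : V) (F F' : List V → ℝ) (h : ∀ l : List V, l.length = n → F l ≤ F' l) :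
    Ew G n x F ≤ Ew G n x F' := by
  induction n generalizing x F F' with
  | zero => exact h [] rfl
  | succ n ih =>
    rw [Ew, Ew]
    exact avg_mono fun y _ => ih y _ _ fun l hl => h _ (by simp [hl])

lemma Ew_congr (n : ℕ) (x : V) (F F' : List V → ℝ) (h : ∀ l : List V, l.length = n → F l = F' l) :
    Ew G n x F = Ew G n x F' :=
  le_antisymm (Ew_mono n x F F' fun l hl => (h l hl).le) (Ew_mono n x F' F fun l hl => (h l hl).ge)

lemma Ew_add (n : ℕ) (x : V) (F F' : List V → ℝ) :
    Ew G n x (fun l => F l + F' l) = Ew G n x F + Ew G n x F' := by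
  induction n generalizing x F F' with
  | zero => rfl
  | succ n ih =>
    rw [Ew, Ew, Ew, ← avg_add]
    exact avg_congr fun y _ => ih y _ _

lemma Ew_const_mul (n : ℕ) (x : V) (a : ℝ) (F : List V → ℝ) :
    Ew G n x (fun l => a * F l) = a * Ew G n x F := by
  induction n generalizing x F with
  | zero => rfl
  | succ n ih =>
    rw [Ew, Ew, ← avg_const_mul]
    exact avg_congr fun y _ => ih y _

lemma Ew_const (hpos : ∀ x, 0 < G.degree x) (n : ℕ) (x : V) (a : ℝ) :
    Ew G n x (fun _ => a) = a := by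
  induction n generalizing x with
  | zero => rfl
  | succ n ih =>
    rw [Ew]
    rw [avg_congr (g := fun _ => a) fun y _ => ih y]
    exact avg_const (hpos x) a

lemma Ew_nonneg (n : ℕ) (x : V) (F : List V → ℝ) (h : ∀ l : List V, l.length = n → 0 ≤ F l) :
    0 ≤ Ew G n x F := by
  induction n generalizing x F with
  | zero => exact h [] rfl
  | succ n ih =>
    rw [Ew]
    exact avg_nonneg fun y _ => ih y _ fun l hl => h _ (by simp [hl])

lemma Ew_zero (n : ℕ) (x : V) : Ew G n x (fun _ => 0) = 0 := by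
  have := Ew_const_mul (G := G) n x 0 (fun _ => 0)
  simpa using this

lemma Ew_sum {ι : Type*} (n : ℕ) (x : V) (s : Finset ι) (F : ι → List V → ℝ) :
    Ew G n x (fun l => ∑ i ∈ s, F i l) = ∑ i ∈ s, Ew G n x (F i) := by
  classical
  induction s using Finset.induction_on with
  | empty => simp [Ew_zero]
  | insert a s ha ih =>
    simp only [Finset.sum_insert ha]
    rw [Ew_add, ih]

/-- the walk expectation of a functional of the first `t` positions -/
lemma Ew_take (hpos : ∀ x, 0 < G.degree x) (t n : ℕ) (h : t ≤ n) (x : V) (F : List V → ℝ) :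
    Ew G n x (fun l => F (l.take t)) = Ew G t x F := by
  induction n generalizing t x F with
  | zero =>
    have : t = 0 := by omega
    subst this
    rfl
  | succ n ih =>
    cases t with
    | zero =>
      simp only [List.take_zero]
      exact Ew_const hpos _ _ _
    | succ t =>
      rw [Ew, Ew]
      refine avg_congr fun y _ => ?_
      have := ih t (by omega) y (fun l => F (x :: l))
      rw [← this]
      rfl

end Ew

section moments

variable {V : Type*} {G : SimpleGraph V} [G.LocallyFinite] [DecidableEq V]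

lemma pow_succ_sub_le (a : ℝ) (ha : 0 ≤ a) (j : ℕ) :
    (a + 1) ^ (j + 1) ≤ a ^ (j + 1) + (j + 1) * (a + 1) ^ j := by
  have h : ∀ j : ℕ, (a + 1) ^ (j + 1) ≤ a ^ (j + 1) + (j + 1) * (a + 1) ^ j := by
    intro j
    induction j with
    | zero => simp
    | succ j ih =>
      have h1 : (a + 1) ^ (j + 1 + 1) = a * (a + 1) ^ (j + 1) + (a + 1) ^ (j + 1) := by ring
      have h2 : a * (a + 1) ^ (j + 1) ≤ a * (a ^ (j + 1) + (j + 1) * (a + 1) ^ j) :=
        mul_le_mul_of_nonneg_left ih ha
      have h3 : a * ((j + 1) * (a + 1) ^ j) ≤ (j + 1) * (a + 1) ^ (j + 1) := by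
        have : a * ((j + 1) * (a + 1) ^ j) ≤ (a + 1) * ((j + 1) * (a + 1) ^ j) := by
          have h0 : (0 : ℝ) ≤ (j + 1) * (a + 1) ^ j := by positivity
          nlinarith
        calc a * ((j + 1) * (a + 1) ^ j) ≤ (a + 1) * ((j + 1) * (a + 1) ^ j) := this
          _ = (j + 1) * (a + 1) ^ (j + 1) := by ring
      push_cast
      have h4 : a * (a ^ (j + 1) + (j + 1) * (a + 1) ^ j) =
        a ^ (j + 1 + 1) + a * ((j + 1) * (a + 1) ^ j) := by ring
      rw [h1]
      linarith
  exact h j

/-- expected powers of the local time -/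
lemma Ew_count_pow (hpos : ∀ x, 0 < G.degree x) (y : V) {g : ℝ} (T : ℕ)
    (hg : ∀ t ≤ T, ∀ x, gr G y t x ≤ g) (hg0 : 0 ≤ g) (j : ℕ) :
    ∀ t ≤ T, ∀ x, Ew G t x (fun l => (l.count y : ℝ) ^ (j + 1)) ≤
      (j + 1).factorial * g ^ j * gr G y t x := by
  induction j with
  | zero =>
    intro t ht x
    simp only [zero_add, pow_one, Nat.factorial_one, Nat.cast_one, pow_zero, mul_one, one_mul]
    induction t generalizing x with
    | zero => simp [Ew, gr]
    | succ t ih =>
      rw [Ew, gr]
      have h1 : ∀ z, Ew G t z (fun l => ((x :: l).count y : ℝ)) =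
          (if x = y then 1 else 0) + Ew G t z (fun l => (l.count y : ℝ)) := by
        intro z
        have h2 : (fun l : List V => ((x :: l).count y : ℝ)) =
            fun l => (if x = y then (1 : ℝ) else 0) + (l.count y : ℝ) := by
          funext l
          rw [List.count_cons]
          push_cast
          by_cases h : x = y <;> simp [h, add_comm]
        rw [h2, Ew_add, Ew_const hpos]
      rw [avg_congr fun z _ => h1 z, avg_add, avg_const (hpos x)]
      have := avg_mono (G := G) (x := x) (fun z _ => ih (by omega) z)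
      linarith
  | succ j ihj =>
    intro t ht x
    induction t generalizing x with
    | zero => simp [Ew, gr]
    | succ t ih =>
      have hgr := hg
      by_cases hxy : x = y
      · subst hxy
        -- at the vertex itself
        have h1 : Ew G (t + 1) x (fun l => (l.count x : ℝ) ^ (j + 1 + 1)) ≤
            avg G (fun z => Ew G t z (fun l => (l.count x : ℝ) ^ (j + 1 + 1))) x +
            (j + 1 + 1) * Ew G (t + 1) x (fun l => (l.count x : ℝ) ^ (j + 1)) := by
          rw [Ew, Ew, ← avg_const_mul, ← avg_add]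
          refine avg_mono fun z _ => ?_
          rw [← Ew_const_mul, ← Ew_add]
          refine Ew_mono t z _ _ fun l _ => ?_
          simp only [List.count_cons_self]
          push_cast
          exact pow_succ_sub_le _ (Nat.cast_nonneg _) (j + 1) |>.trans (by push_cast; linarith)
        have h2 := ihj (t + 1) ht x
        have h3 : avg G (fun z => Ew G t z (fun l => (l.count x : ℝ) ^ (j + 1 + 1))) x ≤
            (j + 1 + 1).factorial * g ^ (j + 1) * avg G (gr G x t) x := by
          rw [← avg_const_mul]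
          exact avg_mono fun z _ => ih (by omega) z
        have h4 : gr G x (t + 1) x = 1 + avg G (gr G x t) x := by simp [gr]
        have h5 : ((j + 1).factorial : ℝ) * g ^ j * gr G x (t + 1) x ≤
            (j + 1).factorial * g ^ j * g :=
          mul_le_mul_of_nonneg_left (hg (t + 1) ht x) (by positivity)
        have h6 : ((j + 1 + 1).factorial : ℝ) = (j + 1 + 1) * (j + 1).factorial := by
          rw [Nat.factorial_succ (j + 1)]; push_cast; ring
        rw [h4]
        calc _ ≤ _ := h1
          _ ≤ (j + 1 + 1).factorial * g ^ (j + 1) * avg G (gr G x t) x +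
              (j + 1 + 1) * ((j + 1).factorial * g ^ j * g) := by
            refine add_le_add h3 (mul_le_mul_of_nonneg_left (h2.trans h5) (by positivity))
          _ = (j + 1 + 1).factorial * g ^ (j + 1) * (1 + avg G (gr G x t) x) := by
            rw [h6]; ring
      · have h1 : Ew G (t + 1) x (fun l => (l.count y : ℝ) ^ (j + 1 + 1)) =
            avg G (fun z => Ew G t z (fun l => (l.count y : ℝ) ^ (j + 1 + 1))) x := by
          rw [Ew]
          refine avg_congr fun z _ => Ew_congr t z _ _ fun l _ => ?_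
          rw [List.count_cons_of_ne (by simpa using hxy)]
        have h4 : gr G y (t + 1) x = avg G (gr G y t) x := by simp [gr, hxy]
        rw [h1, h4, ← avg_const_mul]
        exact avg_mono fun z _ => ih (by omega) z

/-- `L m l = ∑_y (number of visits of `l` to `y`)^m` -/
noncomputable def Lm (m : ℕ) (l : List V) : ℝ := ∑ y ∈ l.toFinset, (l.count y : ℝ) ^ m

lemma Lm_cons_le (j : ℕ) (x : V) (l : List V) :
    Lm (j + 1) (x :: l) ≤ Lm (j + 1) l + (j + 1) * ((x :: l).count x : ℝ) ^ j := by
  unfold Lm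
  have hc : ((x :: l).count x : ℝ) = (l.count x : ℝ) + 1 := by
    rw [List.count_cons_self]; push_cast; ring
  have hne : ∀ y ∈ l.toFinset.erase x, (((x :: l).count y : ℝ)) ^ (j + 1) =
      ((l.count y : ℝ)) ^ (j + 1) := by
    intro y hy
    have hyx : y ≠ x := Finset.ne_of_mem_erase hy
    rw [List.count_cons_of_ne (Ne.symm hyx)]
  have hins : (x :: l).toFinset = insert x (l.toFinset.erase x) := by
    rw [List.toFinset_cons]
    ext z
    simp only [Finset.mem_insert, Finset.mem_erase]
    tauto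
  rw [hins, Finset.sum_insert (Finset.notMem_erase x _), Finset.sum_congr rfl hne, hc]
  have hkey := pow_succ_sub_le (l.count x : ℝ) (Nat.cast_nonneg _) j
  have hrest : (l.count x : ℝ) ^ (j + 1) + ∑ y ∈ l.toFinset.erase x, (l.count y : ℝ) ^ (j + 1) =
      ∑ y ∈ l.toFinset, (l.count y : ℝ) ^ (j + 1) := by
    by_cases hx : x ∈ l.toFinset
    · rw [Finset.add_sum_erase _ (fun y => (l.count y : ℝ) ^ (j + 1)) hx]
    · rw [Finset.erase_eq_of_notMem hx]
      have : l.count x = 0 := by
        rw [List.count_eq_zero]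
        simpa using hx
      rw [this]
      simp
  linarith

/-- expectation of the self-intersection functional -/
lemma Ew_Lm (hpos : ∀ x, 0 < G.degree x) {g : ℝ} (T : ℕ)
    (hg : ∀ y, ∀ t ≤ T, ∀ x, gr G y t x ≤ g) (hg0 : 0 ≤ g) (j : ℕ) :
    ∀ t ≤ T, ∀ x, Ew G t x (Lm (j + 1)) ≤ t * ((j + 1).factorial * g ^ j) := by
  intro t ht
  induction t with
  | zero => intro x; simp [Ew, Lm]
  | succ t ih =>
    intro x
    have h1 : Ew G (t + 1) x (Lm (j + 1)) ≤
        avg G (fun z => Ew G t z (Lm (j + 1))) x +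
          (j + 1) * Ew G (t + 1) x (fun l => (l.count x : ℝ) ^ j) := by
      rw [Ew, Ew, ← avg_const_mul, ← avg_add]
      refine avg_mono fun z _ => ?_
      rw [← Ew_const_mul, ← Ew_add]
      exact Ew_mono t z _ _ fun l _ => Lm_cons_le j x l
    have h2 : avg G (fun z => Ew G t z (Lm (j + 1))) x ≤ t * ((j + 1).factorial * g ^ j) :=
      avg_le_const (hpos x) fun z _ => ih (by omega) z
    have h3 : Ew G (t + 1) x (fun l => (l.count x : ℝ) ^ j) ≤ j.factorial * g ^ j := by
      cases j with
      | zero => simp [Ew_const hpos]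
      | succ j =>
        refine (Ew_count_pow hpos x T (hg x) hg0 j (t + 1) ht x).trans ?_
        have := hg x (t + 1) ht x
        calc ((j + 1).factorial : ℝ) * g ^ j * gr G x (t + 1) x
            ≤ (j + 1).factorial * g ^ j * g := mul_le_mul_of_nonneg_left this (by positivity)
          _ = (j + 1).factorial * g ^ (j + 1) := by ring
    have h6 : ((j + 1).factorial : ℝ) = (j + 1) * j.factorial := by
      rw [Nat.factorial_succ]; push_cast; ring
    have h7 : ((j : ℝ) + 1) * Ew G (t + 1) x (fun l => (l.count x : ℝ) ^ j) ≤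
        (j + 1) * (j.factorial * g ^ j) := mul_le_mul_of_nonneg_left h3 (by positivity)
    push_cast
    rw [h6] at h2 ⊢
    linarith

/-- Cauchy-Schwarz inequalities between the `Lm` -/
lemma Lm_nonneg (m : ℕ) (l : List V) : 0 ≤ Lm m l :=
  Finset.sum_nonneg fun _ _ => by positivity

lemma Lm_one (l : List V) : Lm 1 l = l.length := by
  unfold Lm
  simp only [pow_one]
  rw [← Nat.cast_sum]
  congr 1
  exact List.sum_toFinset_count_eq_length l

lemma Lm_sq_le (a b c : ℕ) (h : 2 * b = a + c) (l : List V) : Lm b l ^ 2 ≤ Lm a l * Lm c l := by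
  unfold Lm
  refine Finset.sum_sq_le_sum_mul_sum_of_sq_le_mul _ (fun _ _ => by positivity)
    (fun _ _ => by positivity) (fun y _ => le_of_eq ?_)
  rw [← pow_mul, ← pow_add]
  congr 1
  omega

lemma L3_sq (l : List V) : Lm 3 l ^ 2 ≤ l.length * Lm 5 l := by
  have := Lm_sq_le 1 3 5 (by norm_num) l
  rwa [Lm_one] at this

lemma L2_cube (l : List V) : Lm 2 l ^ 3 ≤ (l.length : ℝ) ^ 2 * Lm 4 l := by
  have h1 := Lm_sq_le 1 2 3 (by norm_num) l
  have h2 := Lm_sq_le 2 3 4 (by norm_num) l
  rw [Lm_one] at h1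
  have n2 := Lm_nonneg 2 l
  have n3 := Lm_nonneg 3 l
  have n4 := Lm_nonneg 4 l
  have nl : (0 : ℝ) ≤ l.length := Nat.cast_nonneg _
  rcases n2.lt_or_eq with hpos | hzero
  · have h3 : Lm 2 l ^ 4 ≤ (l.length : ℝ) ^ 2 * (Lm 2 l * Lm 4 l) := by
      calc Lm 2 l ^ 4 = (Lm 2 l ^ 2) ^ 2 := by ring
        _ ≤ ((l.length : ℝ) * Lm 3 l) ^ 2 := by gcongr
        _ = (l.length : ℝ) ^ 2 * Lm 3 l ^ 2 := by ring
        _ ≤ (l.length : ℝ) ^ 2 * (Lm 2 l * Lm 4 l) := by gcongr
    have h4 : Lm 2 l * Lm 2 l ^ 3 ≤ Lm 2 l * ((l.length : ℝ) ^ 2 * Lm 4 l) := by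
      calc Lm 2 l * Lm 2 l ^ 3 = Lm 2 l ^ 4 := by ring
        _ ≤ _ := h3
        _ = _ := by ring
    exact le_of_mul_le_mul_left h4 hpos
  · rw [← hzero]
    have : (0 : ℝ) ≤ (l.length : ℝ) ^ 2 * Lm 4 l := by positivity
    simpa using this

lemma L2_L4 (l : List V) : Lm 2 l * Lm 4 l ≤ l.length * Lm 5 l := by
  have h1 := Lm_sq_le 1 2 3 (by norm_num) l
  have h2 := Lm_sq_le 3 4 5 (by norm_num) l
  have h3 := L3_sq l
  rw [Lm_one] at h1
  have n2 := Lm_nonneg 2 l
  have n3 := Lm_nonneg 3 l
  have n4 := Lm_nonneg 4 l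
  have n5 := Lm_nonneg 5 l
  have nl : (0 : ℝ) ≤ l.length := Nat.cast_nonneg _
  refine (pow_le_pow_iff_left₀ (by positivity) (by positivity) two_ne_zero).1 ?_
  calc (Lm 2 l * Lm 4 l) ^ 2 = Lm 2 l ^ 2 * Lm 4 l ^ 2 := by ring
    _ ≤ (l.length * Lm 3 l) * (Lm 3 l * Lm 5 l) := by gcongr
    _ = l.length * Lm 5 l * Lm 3 l ^ 2 := by ring
    _ ≤ l.length * Lm 5 l * (l.length * Lm 5 l) := by gcongr
    _ = (l.length * Lm 5 l) ^ 2 := by ring

end moments

end Pool.Agent.Lib_helper99.Sandpile
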